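import Mathlib
set_option autoImplicit false

/-! Fourier multipliers which are transforms of probability measures, and series of them. -/

namespace Pool.Agent.Q93.LSP

open MeasureTheory Set Filter Topology ProbabilityTheory
open scoped ENNReal NNReal FourierTransform RealInnerProductSpace SchwartzMap

variable {E : Type*} [NormedAddCommGroup E] [InnerProductSpace ℝ E] [FiniteDimensional ℝ E]
  [MeasurableSpace E] [BorelSpace E]

lemma finv_apply (g : E → ℂ) (x : E) : 𝓕⁻ g x = ∫ ξ, (𝐞 ⟪ξ, x⟫ : ℂ) * g ξ := by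
  rw [Real.fourierInv_eq]
  rfl

lemma norm_char (a : ℝ) : ‖((𝐞 a : Circle) : ℂ)‖ = 1 := Circle.norm_coe _

lemma char_continuous : Continuous fun a : ℝ => ((𝐞 a : Circle) : ℂ) :=
  continuous_subtype_val.comp Real.continuous_fourierChar

lemma char_add (a b : ℝ) : ((𝐞 (a + b) : Circle) : ℂ) = (𝐞 a : ℂ) * (𝐞 b : ℂ) := by
  rw [AddChar.map_add_eq_mul]
  rfl

lemma finv_int {g : E → ℂ} (hg : Integrable g) (x : E) :
    Integrable fun ξ => (𝐞 ⟪ξ, x⟫ : ℂ) * g ξ := by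
  apply hg.bdd_mul (c := 1)
  · exact (char_continuous.comp (by fun_prop)).aestronglyMeasurable
  · filter_upwards with ξ
    exact (norm_char _).le

lemma finv_le (g : E → ℂ) (x : E) : ‖𝓕⁻ g x‖ ≤ ∫ ξ, ‖g ξ‖ := by
  rw [finv_apply]
  refine (norm_integral_le_integral_norm _).trans (le_of_eq ?_)
  congr 1
  ext ξ
  rw [norm_mul, norm_char, one_mul]

lemma finv_continuous {g : E → ℂ} (hg : Integrable g) : Continuous (𝓕⁻ g) := by
  have : 𝓕⁻ g = fun x => ∫ ξ, (𝐞 ⟪ξ, x⟫ : ℂ) * g ξ := by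
    ext x
    exact finv_apply g x
  rw [this]
  apply continuous_of_dominated (bound := fun ξ => ‖g ξ‖)
  · intro x
    exact (finv_int hg x).aestronglyMeasurable
  · intro x
    filter_upwards with ξ
    rw [norm_mul, norm_char, one_mul]
  · exact hg.norm
  · filter_upwards with ξ
    exact (char_continuous.comp (by fun_prop)).mul continuous_const

/-- multiplication by `m` on the Fourier side is bounded by `K` in `L^q` -/
def Mult (q : ℝ≥0∞) (K : ℝ≥0) (m : E → ℝ) : Prop :=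
  Continuous m ∧ (∃ M : ℝ, ∀ ξ, |m ξ| ≤ M) ∧ ∀ g : E → ℂ, Integrable g →
    eLpNorm (𝓕⁻ fun ξ => (m ξ : ℂ) * g ξ) q volume ≤ K * eLpNorm (𝓕⁻ g) q volume

lemma Mult.int {q : ℝ≥0∞} {K : ℝ≥0} {m : E → ℝ} (hm : Mult q K m) {g : E → ℂ}
    (hg : Integrable g) : Integrable fun ξ => (m ξ : ℂ) * g ξ := by
  obtain ⟨h1, ⟨M, h2⟩, -⟩ := hm
  apply hg.bdd_mul (c := M)
  · exact (Complex.continuous_ofReal.comp h1).aestronglyMeasurable
  · filter_upwards with ξ
    rw [Complex.norm_real]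
    exact h2 ξ

lemma Mult.mul {q : ℝ≥0∞} {K L : ℝ≥0} {m n : E → ℝ} (hm : Mult q K m) (hn : Mult q L n) :
    Mult q (K * L) fun ξ => m ξ * n ξ := by
  obtain ⟨h1, ⟨M, h2⟩, h3⟩ := hm
  obtain ⟨k1, ⟨N, k2⟩, k3⟩ := hn
  refine ⟨h1.mul k1, ⟨M * N, fun ξ => ?_⟩, ?_⟩
  · rw [abs_mul]
    exact mul_le_mul (h2 ξ) (k2 ξ) (abs_nonneg _) ((abs_nonneg _).trans (h2 ξ))
  · intro g hg
    have e : (fun ξ => ((m ξ * n ξ : ℝ) : ℂ) * g ξ) = fun ξ => (m ξ : ℂ) * ((n ξ : ℂ) * g ξ) := by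
      ext ξ
      push_cast
      ring
    rw [e]
    refine (h3 _ (Mult.int (K := L) (q := q) ⟨k1, ⟨N, k2⟩, k3⟩ hg)).trans ?_
    rw [ENNReal.coe_mul, mul_assoc]
    gcongr
    exact k3 g hg

lemma Mult.one (q : ℝ≥0∞) : Mult q 1 fun _ : E => (1 : ℝ) := by
  refine ⟨continuous_const, ⟨1, fun ξ => by simp⟩, fun g _ => ?_⟩
  simp

lemma Mult.pow {q : ℝ≥0∞} {m : E → ℝ} (hm : Mult q 1 m) (k : ℕ) :
    Mult q 1 fun ξ => m ξ ^ k := by
  induction k with
  | zero => simpa using Mult.one (E := E) q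
  | succ k ih =>
    have := ih.mul hm
    rw [one_mul] at this
    simpa only [pow_succ] using this

lemma Mult.mono {q : ℝ≥0∞} {K L : ℝ≥0} {m : E → ℝ} (hm : Mult q K m) (h : K ≤ L) :
    Mult q L m := by
  refine ⟨hm.1, hm.2.1, fun g hg => (hm.2.2 g hg).trans ?_⟩
  gcongr

/-- the transform of a probability measure is a multiplier of norm one -/
lemma mult_of_prob {Ω : Type*} [MeasurableSpace Ω] (P : Measure Ω) [IsProbabilityMeasure P]
    (Y : Ω → E) (hY : Measurable Y) {m : E → ℝ} (hm : Continuous m)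
    (h : ∀ ξ, (m ξ : ℂ) = ∫ ω, (𝐞 (-⟪ξ, Y ω⟫) : ℂ) ∂P) {p : ℝ} (hp : 1 ≤ p) :
    Mult (ENNReal.ofReal p) 1 m := by
  have hb : ∀ ξ, |m ξ| ≤ 1 := by
    intro ξ
    have : ‖(m ξ : ℂ)‖ ≤ 1 := by
      rw [h ξ]
      refine (norm_integral_le_integral_norm _).trans ?_
      simp [norm_char]
    rwa [Complex.norm_real] at this
  refine ⟨hm, ⟨1, hb⟩, ?_⟩
  intro g hg
  have key : ∀ x, 𝓕⁻ (fun ξ => (m ξ : ℂ) * g ξ) x = ∫ ω, 𝓕⁻ g (x - Y ω) ∂P := by
    intro x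
    have h1 : Integrable (fun z : E × Ω => (𝐞 (⟪z.1, x - Y z.2⟫) : ℂ) * g z.1)
        (volume.prod P) := by
      have h2 : Integrable (fun z : E × Ω => g z.1) (volume.prod P) := hg.comp_fst P
      apply h2.bdd_mul (c := 1)
      · apply Measurable.aestronglyMeasurable
        apply char_continuous.measurable.comp
        exact Measurable.inner measurable_fst (measurable_const.sub (hY.comp measurable_snd))
      · filter_upwards with z
        exact (norm_char _).le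
    calc 𝓕⁻ (fun ξ => (m ξ : ℂ) * g ξ) x
        = ∫ ξ, (𝐞 ⟪ξ, x⟫ : ℂ) * ((m ξ : ℂ) * g ξ) := finv_apply _ _
      _ = ∫ ξ, ∫ ω, (𝐞 (⟪ξ, x - Y ω⟫) : ℂ) * g ξ ∂P := by
          congr 1
          ext ξ
          rw [h ξ, integral_mul_const]
          have : ∀ ω, ((𝐞 (⟪ξ, x - Y ω⟫) : Circle) : ℂ)
              = (𝐞 ⟪ξ, x⟫ : ℂ) * (𝐞 (-⟪ξ, Y ω⟫) : ℂ) := by
            intro ω
            rw [← char_add, inner_sub_right, sub_eq_add_neg]
          simp_rw [this]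
          rw [integral_const_mul, mul_assoc]
      _ = ∫ ω, (∫ ξ, (𝐞 (⟪ξ, x - Y ω⟫) : ℂ) * g ξ) ∂P := integral_integral_swap h1
      _ = ∫ ω, 𝓕⁻ g (x - Y ω) ∂P := by
          congr 1
          ext ω
          rw [finv_apply]
  have hc : Continuous (𝓕⁻ g) := finv_continuous hg
  have hp0 : 0 < p := by linarith
  have hq0 : ENNReal.ofReal p ≠ 0 := by simpa using hp0
  have hqt : ENNReal.ofReal p ≠ ⊤ := ENNReal.ofReal_ne_top
  have hpr : (ENNReal.ofReal p).toReal = p := ENNReal.toReal_ofReal hp0.le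
  rw [eLpNorm_eq_lintegral_rpow_enorm_toReal hq0 hqt, eLpNorm_eq_lintegral_rpow_enorm_toReal hq0 hqt,
    hpr, ENNReal.coe_one, one_mul]
  gcongr ?_ ^ _
  have pt : ∀ x, ‖𝓕⁻ (fun ξ => (m ξ : ℂ) * g ξ) x‖ₑ ^ p ≤ ∫⁻ ω, ‖𝓕⁻ g (x - Y ω)‖ₑ ^ p ∂P := by
    intro x
    rw [key]
    have ms : AEStronglyMeasurable (fun ω => 𝓕⁻ g (x - Y ω)) P :=
      (hc.measurable.comp (measurable_const.sub hY)).aestronglyMeasurable
    have h3 : ‖∫ ω, 𝓕⁻ g (x - Y ω) ∂P‖ₑ ≤ eLpNorm (fun ω => 𝓕⁻ g (x - Y ω)) (ENNReal.ofReal p) P := by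
      refine (enorm_integral_le_lintegral_enorm _).trans ?_
      rw [← eLpNorm_one_eq_lintegral_enorm]
      apply eLpNorm_le_eLpNorm_of_exponent_le _ ms
      rw [← ENNReal.ofReal_one]
      exact ENNReal.ofReal_le_ofReal hp
    rw [eLpNorm_eq_lintegral_rpow_enorm_toReal hq0 hqt, hpr] at h3
    calc ‖∫ ω, 𝓕⁻ g (x - Y ω) ∂P‖ₑ ^ p ≤ ((∫⁻ ω, ‖𝓕⁻ g (x - Y ω)‖ₑ ^ p ∂P) ^ (1 / p)) ^ p := by
          gcongr
      _ = _ := by
          rw [← ENNReal.rpow_mul, one_div, inv_mul_cancel₀ hp0.ne', ENNReal.rpow_one]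
  have mh : Measurable fun z : E × Ω => ‖𝓕⁻ g (z.1 - Y z.2)‖ₑ ^ p := by
    have : Measurable fun z : E × Ω => z.1 - Y z.2 := measurable_fst.sub (hY.comp measurable_snd)
    exact ((hc.measurable.comp this).enorm).pow_const p
  calc ∫⁻ x, ‖𝓕⁻ (fun ξ => (m ξ : ℂ) * g ξ) x‖ₑ ^ p
      ≤ ∫⁻ x, ∫⁻ ω, ‖𝓕⁻ g (x - Y ω)‖ₑ ^ p ∂P := lintegral_mono pt
    _ = ∫⁻ ω, (∫⁻ x, ‖𝓕⁻ g (x - Y ω)‖ₑ ^ p) ∂P := lintegral_lintegral_swap mh.aemeasurable
    _ = ∫⁻ _ω, (∫⁻ x, ‖𝓕⁻ g x‖ₑ ^ p) ∂P := by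
        congr 1
        ext ω
        exact lintegral_sub_right_eq_self (fun x => ‖𝓕⁻ g x‖ₑ ^ p) (Y ω)
    _ = ∫⁻ x, ‖𝓕⁻ g x‖ₑ ^ p := by simp

lemma finv_add {f g : E → ℂ} (hf : Integrable f) (hg : Integrable g) (x : E) :
    𝓕⁻ (fun ξ => f ξ + g ξ) x = 𝓕⁻ f x + 𝓕⁻ g x := by
  simp only [finv_apply, mul_add]
  exact integral_add (finv_int hf x) (finv_int hg x)

lemma finv_const_mul (c : ℂ) (f : E → ℂ) (x : E) :
    𝓕⁻ (fun ξ => c * f ξ) x = c * 𝓕⁻ f x := by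
  simp only [finv_apply]
  rw [← integral_const_mul]
  congr 1
  ext ξ
  ring

lemma finv_sum {ι : Type*} (s : Finset ι) {f : ι → E → ℂ} (hf : ∀ i ∈ s, Integrable (f i)) (x : E) :
    𝓕⁻ (fun ξ => ∑ i ∈ s, f i ξ) x = ∑ i ∈ s, 𝓕⁻ (f i) x := by
  simp only [finv_apply, Finset.mul_sum]
  exact integral_finsetSum _ fun i hi => finv_int (hf i hi) x

/-- series of powers of a multiplier of norm one -/
lemma mult_series {p : ℝ} (hp : 1 ≤ p) {J : E → ℝ} (hJ : Mult (ENNReal.ofReal p) 1 J)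
    (hJ1 : ∀ ξ, |J ξ| ≤ 1) {c : ℕ → ℝ} {K : ℝ≥0} (hs : Summable fun k => |c k|)
    (hK : ∑' k, |c k| ≤ K) {m : E → ℝ} (hm : Continuous m)
    (hsum : ∀ ξ, HasSum (fun k => c k * J ξ ^ k) (m ξ)) :
    Mult (ENNReal.ofReal p) K m := by
  have hq1 : 1 ≤ ENNReal.ofReal p := by
    rw [← ENNReal.ofReal_one]
    exact ENNReal.ofReal_le_ofReal hp
  have hterm : ∀ ξ k, |c k * J ξ ^ k| ≤ |c k| := by
    intro ξ k
    rw [abs_mul, abs_pow]
    exact mul_le_of_le_one_right (abs_nonneg _) (pow_le_one₀ (abs_nonneg _) (hJ1 ξ))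
  have hpart : ∀ (n : ℕ) ξ, |∑ k ∈ Finset.range n, c k * J ξ ^ k| ≤ K := by
    intro n ξ
    refine (Finset.abs_sum_le_sum_abs _ _).trans ?_
    refine (Finset.sum_le_sum fun k _ => hterm ξ k).trans ?_
    exact (hs.sum_le_tsum _ fun k _ => abs_nonneg _).trans hK
  have hbd : ∀ ξ, |m ξ| ≤ K := by
    intro ξ
    have := (hsum ξ).tendsto_sum_nat.abs
    exact le_of_tendsto this (Eventually.of_forall fun n => hpart n ξ)
  refine ⟨hm, ⟨K, hbd⟩, ?_⟩
  intro g hg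
  have hpi : ∀ k, Integrable fun ξ => ((J ξ ^ k : ℝ) : ℂ) * g ξ := fun k => (hJ.pow k).int hg
  have hni : ∀ n : ℕ, Integrable fun ξ =>
      ((∑ k ∈ Finset.range n, c k * J ξ ^ k : ℝ) : ℂ) * g ξ := by
    intro n
    apply hg.bdd_mul (c := (K : ℝ))
    · apply Continuous.aestronglyMeasurable
      apply Complex.continuous_ofReal.comp
      exact continuous_finsetSum _ fun k _ => continuous_const.mul (hJ.1.pow k)
    · filter_upwards with ξ
      rw [Complex.norm_real]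
      exact hpart n ξ
  have hnorm : ∀ n : ℕ, eLpNorm (𝓕⁻ fun ξ =>
      ((∑ k ∈ Finset.range n, c k * J ξ ^ k : ℝ) : ℂ) * g ξ) (ENNReal.ofReal p) volume
        ≤ K * eLpNorm (𝓕⁻ g) (ENNReal.ofReal p) volume := by
    intro n
    have e : (𝓕⁻ fun ξ => ((∑ k ∈ Finset.range n, c k * J ξ ^ k : ℝ) : ℂ) * g ξ)
        = ∑ k ∈ Finset.range n, (fun x => (c k : ℂ) * 𝓕⁻ (fun ξ => ((J ξ ^ k : ℝ) : ℂ) * g ξ) x) := by
      ext x
      have e1 : (fun ξ => ((∑ k ∈ Finset.range n, c k * J ξ ^ k : ℝ) : ℂ) * g ξ)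
          = fun ξ => ∑ k ∈ Finset.range n, (c k : ℂ) * (((J ξ ^ k : ℝ) : ℂ) * g ξ) := by
        ext ξ
        push_cast
        rw [Finset.sum_mul]
        apply Finset.sum_congr rfl
        intro k _
        ring
      rw [e1, finv_sum _ (fun k _ => (hpi k).const_mul _), Finset.sum_apply]
      apply Finset.sum_congr rfl
      intro k _
      rw [finv_const_mul]
    rw [e]
    refine (eLpNorm_sum_le (fun k _ => ?_) hq1).trans ?_
    · exact (continuous_const.mul (finv_continuous (hpi k))).aestronglyMeasurable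
    · have hk : ∀ k ∈ Finset.range n, eLpNorm (fun x => (c k : ℂ) *
          𝓕⁻ (fun ξ => ((J ξ ^ k : ℝ) : ℂ) * g ξ) x) (ENNReal.ofReal p) volume
            ≤ ENNReal.ofReal |c k| * eLpNorm (𝓕⁻ g) (ENNReal.ofReal p) volume := by
        intro k _
        have : (fun x => (c k : ℂ) * 𝓕⁻ (fun ξ => ((J ξ ^ k : ℝ) : ℂ) * g ξ) x)
            = (c k : ℂ) • (𝓕⁻ fun ξ => ((J ξ ^ k : ℝ) : ℂ) * g ξ) := by
          ext x
          simp
        rw [this, eLpNorm_const_smul]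
        have h5 := (hJ.pow k).2.2 g hg
        rw [ENNReal.coe_one, one_mul] at h5
        have h6 : ‖(c k : ℂ)‖ₑ = ENNReal.ofReal |c k| := by
          rw [← ofReal_norm, Complex.norm_real, Real.norm_eq_abs]
        rw [h6]
        gcongr
      refine (Finset.sum_le_sum hk).trans ?_
      rw [← Finset.sum_mul]
      gcongr
      rw [← ENNReal.ofReal_sum_of_nonneg fun k _ => abs_nonneg _, ← ENNReal.ofReal_coe_nnreal]
      apply ENNReal.ofReal_le_ofReal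
      exact (hs.sum_le_tsum _ fun k _ => abs_nonneg _).trans hK
  have hlim : ∀ x, Tendsto (fun n : ℕ => 𝓕⁻ (fun ξ =>
      ((∑ k ∈ Finset.range n, c k * J ξ ^ k : ℝ) : ℂ) * g ξ) x) atTop
        (𝓝 (𝓕⁻ (fun ξ => (m ξ : ℂ) * g ξ) x)) := by
    intro x
    simp only [finv_apply]
    apply tendsto_integral_of_dominated_convergence (fun ξ => K * ‖g ξ‖)
    · intro n
      exact (finv_int (hni n) x).aestronglyMeasurable
    · exact hg.norm.const_mul _
    · intro n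
      filter_upwards with ξ
      rw [norm_mul, norm_char, one_mul, norm_mul, Complex.norm_real]
      gcongr
      exact hpart n ξ
    · filter_upwards with ξ
      apply Tendsto.const_mul
      apply Tendsto.mul_const
      exact (Complex.continuous_ofReal.tendsto _).comp (hsum ξ).tendsto_sum_nat
  refine (Lp.eLpNorm_lim_le_liminf_eLpNorm
    (fun n => (finv_continuous (hni n)).aestronglyMeasurable) _
      (Eventually.of_forall hlim)).trans ?_
  exact liminf_le_of_le (by isBoundedDefault) (fun b hb => by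
    obtain ⟨n, hn⟩ := hb.exists
    exact hn.trans (hnorm n))

end Pool.Agent.Q93.LSP
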