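import Mathlib
import Pool.Agent.Q93.LSP.A
set_option autoImplicit false

/-! The multipliers `(r + (1 - r)/(1 + 4π²|ξ|²))^σ` for `r` near one. -/

namespace Pool.Agent.Q93.LSP

open MeasureTheory Set Filter Topology ProbabilityTheory
open scoped ENNReal NNReal FourierTransform RealInnerProductSpace SchwartzMap

variable {E : Type*} [NormedAddCommGroup E] [InnerProductSpace ℝ E] [FiniteDimensional ℝ E]
  [MeasurableSpace E] [BorelSpace E]

/-- `1 + 4π²|ξ|²` -/
noncomputable def br (ξ : E) : ℝ := 1 + 4 * Real.pi ^ 2 * ‖ξ‖ ^ 2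

lemma br_one_le (ξ : E) : 1 ≤ br ξ := by
  unfold br
  have : 0 ≤ 4 * Real.pi ^ 2 * ‖ξ‖ ^ 2 := by positivity
  linarith

lemma br_pos (ξ : E) : 0 < br ξ := by
  have := br_one_le ξ
  linarith

lemma br_continuous : Continuous (br : E → ℝ) := by
  unfold br
  fun_prop

/-- `1/(1 + 4π²|ξ|²)` -/
noncomputable def J (ξ : E) : ℝ := (br ξ)⁻¹

lemma J_nonneg (ξ : E) : 0 ≤ J ξ := inv_nonneg.2 (br_pos ξ).le

lemma J_le_one (ξ : E) : J ξ ≤ 1 := inv_le_one_of_one_le₀ (br_one_le ξ)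

lemma J_continuous : Continuous (J : E → ℝ) :=
  br_continuous.inv₀ fun ξ => (br_pos ξ).ne'

/-- the exponential distribution -/
noncomputable def ex : Measure ℝ :=
  (volume.restrict (Ioi (0 : ℝ))).withDensity fun t => ENNReal.ofReal (Real.exp (-t))

lemma ex_integral (f : ℝ → ℂ) : ∫ t, f t ∂ex = ∫ t in Ioi (0 : ℝ), (Real.exp (-t) : ℂ) * f t := by
  unfold ex
  rw [integral_withDensity_eq_integral_toReal_smul (by fun_prop)
    (Eventually.of_forall fun _ => ENNReal.ofReal_lt_top)]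
  congr 1
  ext t
  rw [ENNReal.toReal_ofReal (Real.exp_pos _).le, Complex.real_smul]

instance : IsProbabilityMeasure ex := by
  constructor
  unfold ex
  rw [withDensity_apply _ MeasurableSet.univ, Measure.restrict_univ,
    ← ofReal_integral_eq_lintegral_ofReal]
  · rw [integral_exp_neg_Ioi_zero, ENNReal.ofReal_one]
  · have := integrableOn_exp_neg_Ioi 0
    exact this
  · exact Eventually.of_forall fun t => (Real.exp_pos _).le

lemma gauss (ξ : E) (a : ℝ) :
    ∫ x, ((𝐞 (-⟪ξ, a • x⟫) : Circle) : ℂ) ∂(stdGaussian E)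
      = Complex.exp (-(4 * Real.pi ^ 2 * a ^ 2 * ‖ξ‖ ^ 2 / 2 : ℝ)) := by
  have h := charFun_stdGaussian (E := E) ((-(2 * Real.pi * a)) • ξ)
  rw [charFun_apply] at h
  have e1 : ∀ x : E, ((𝐞 (-⟪ξ, a • x⟫) : Circle) : ℂ)
      = Complex.exp (⟪x, (-(2 * Real.pi * a)) • ξ⟫ * Complex.I) := by
    intro x
    rw [Real.fourierChar_apply, inner_smul_right, inner_smul_right, real_inner_comm]
    congr 1
    push_cast
    ring
  simp_rw [e1]
  rw [h, norm_smul]
  congr 1
  have e2 : (|-(2 * Real.pi * a)| * ‖ξ‖) ^ 2 = 4 * Real.pi ^ 2 * a ^ 2 * ‖ξ‖ ^ 2 := by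
    rw [mul_pow, sq_abs]
    ring
  rw [Real.norm_eq_abs, ← Complex.ofReal_pow, e2]
  push_cast
  ring

lemma J_mult {p : ℝ} (hp : 1 ≤ p) : Mult (ENNReal.ofReal p) 1 (J : E → ℝ) := by
  apply mult_of_prob (Ω := ℝ × E) (ex.prod (stdGaussian E))
    (fun z => Real.sqrt (2 * z.1) • z.2) (by fun_prop) J_continuous _ hp
  intro ξ
  have hm : Measurable fun z : ℝ × E => ((𝐞 (-⟪ξ, Real.sqrt (2 * z.1) • z.2⟫) : Circle) : ℂ) := by
    apply char_continuous.measurable.comp
    fun_prop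
  have hi : Integrable (fun z : ℝ × E => ((𝐞 (-⟪ξ, Real.sqrt (2 * z.1) • z.2⟫) : Circle) : ℂ))
      (ex.prod (stdGaussian E)) := by
    apply (integrable_const (1 : ℝ)).mono' hm.aestronglyMeasurable
    filter_upwards with z
    exact (norm_char _).le
  rw [integral_prod _ hi]
  simp only
  have e : ∀ t ∈ Ioi (0 : ℝ), (Real.exp (-t) : ℂ) *
      ∫ x, ((𝐞 (-⟪ξ, Real.sqrt (2 * t) • x⟫) : Circle) : ℂ) ∂(stdGaussian E)
        = ((Real.exp (-(br ξ) * t) : ℝ) : ℂ) := by
    intro t ht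
    have ht' : (0 : ℝ) ≤ 2 * t := by
      have : (0 : ℝ) < t := ht
      positivity
    rw [gauss, Real.sq_sqrt ht', Complex.ofReal_exp, Complex.ofReal_exp, ← Complex.exp_add]
    congr 1
    unfold br
    push_cast
    ring
  rw [ex_integral, setIntegral_congr_fun measurableSet_Ioi e, integral_complex_ofReal,
    integral_exp_mul_Ioi (by have := br_pos ξ; linarith)]
  unfold J
  congr 1
  have := (br_pos ξ).ne'
  rw [mul_zero, Real.exp_zero]
  field_simp

lemma choose_summable (σ : ℝ) : Summable fun k : ℕ => |Ring.choose σ k| * (1 / 2) ^ k := by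
  have h := Real.one_add_rpow_hasFPowerSeriesOnBall_zero (a := σ)
  have h2 : ((1 / 2 : ℝ≥0) : ℝ≥0∞) < (binomialSeries ℝ σ).radius := by
    refine lt_of_lt_of_le ?_ h.r_le
    rw [← ENNReal.coe_one, ENNReal.coe_lt_coe]
    rw [← NNReal.coe_lt_coe]
    norm_num
  have h3 := (binomialSeries ℝ σ).summable_norm_mul_pow h2
  refine h3.congr fun k => ?_
  have : ‖binomialSeries ℝ σ k‖ = |Ring.choose σ k| := by
    simp [binomialSeries, FormalMultilinearSeries.ofScalars_norm]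
  rw [this]
  norm_num

lemma binom_hasSum (σ x : ℝ) (hx : |x| < 1) :
    HasSum (fun k : ℕ => Ring.choose σ k * x ^ k) ((1 + x) ^ σ) := by
  have h := (Real.one_add_rpow_hasFPowerSeriesOnBall_zero (a := σ)).hasSum (y := x) (by
    rw [Metric.mem_eball, edist_zero_right]
    rw [← ofReal_norm, Real.norm_eq_abs, ← ENNReal.ofReal_one]
    exact (ENNReal.ofReal_lt_ofReal_iff one_pos).2 hx)
  rw [zero_add] at h
  have e : (fun k : ℕ => Ring.choose σ k * x ^ k)
      = fun k => (binomialSeries ℝ σ k) fun _ => x := by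
    ext k
    rw [binomialSeries_apply]
    simp
  rw [e]
  exact h

/-- the constant of the multipliers near `1` -/
noncomputable def K₀ (σ : ℝ) : ℝ≥0 :=
  Real.toNNReal (2 ^ |σ| * ∑' k : ℕ, |Ring.choose σ k| * (1 / 2) ^ k)

/-- `(r + (1 - r) J)^σ`, `2/3 ≤ r ≤ 2`, are multipliers with a common bound. -/
lemma mult_near {p : ℝ} (hp : 1 ≤ p) (σ r : ℝ) (h1 : 2 / 3 ≤ r) (h2 : r ≤ 2) :
    Mult (ENNReal.ofReal p) (K₀ σ) fun ξ : E => (r + (1 - r) * J ξ) ^ σ := by
  have hr : 0 < r := by linarith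
  have hq : |(1 - r) / r| ≤ 1 / 2 := by
    rw [abs_le]
    constructor
    · rw [le_div_iff₀ hr]
      linarith
    · rw [div_le_iff₀ hr]
      linarith
  have hrs : r ^ σ ≤ 2 ^ |σ| := by
    rcases le_total 1 r with h | h
    · calc r ^ σ ≤ r ^ |σ| := Real.rpow_le_rpow_of_exponent_le h (le_abs_self σ)
        _ ≤ 2 ^ |σ| := Real.rpow_le_rpow hr.le h2 (abs_nonneg _)
    · calc r ^ σ = (r⁻¹) ^ (-σ) := by
            rw [Real.inv_rpow hr.le, Real.rpow_neg hr.le, inv_inv]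
        _ ≤ (r⁻¹) ^ |σ| := Real.rpow_le_rpow_of_exponent_le (one_le_inv₀ hr |>.2 h) (neg_le_abs σ)
        _ ≤ 2 ^ |σ| := by
            apply Real.rpow_le_rpow (by positivity) _ (abs_nonneg _)
            rw [inv_le_comm₀ hr two_pos]
            linarith
  have hbr : ∀ ξ : E, r + (1 - r) * J ξ = r * (1 + (1 - r) / r * J ξ) := by
    intro ξ
    field_simp
  have hx : ∀ ξ : E, |(1 - r) / r * J ξ| ≤ 1 / 2 := by
    intro ξ
    rw [abs_mul, abs_of_nonneg (J_nonneg ξ)]
    calc |(1 - r) / r| * J ξ ≤ 1 / 2 * 1 :=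
          mul_le_mul hq (J_le_one ξ) (J_nonneg ξ) (by norm_num)
      _ = 1 / 2 := by ring
  have hpos : ∀ ξ : E, 0 < 1 + (1 - r) / r * J ξ := by
    intro ξ
    have := (abs_le.1 (hx ξ)).1
    linarith
  have hterm : ∀ k : ℕ, |r ^ σ * Ring.choose σ k * ((1 - r) / r) ^ k|
      ≤ 2 ^ |σ| * (|Ring.choose σ k| * (1 / 2) ^ k) := by
    intro k
    rw [abs_mul, abs_mul, abs_pow, abs_of_nonneg (Real.rpow_nonneg hr.le σ), mul_assoc]
    gcongr
  have hs0 : Summable fun k : ℕ => 2 ^ |σ| * (|Ring.choose σ k| * (1 / 2) ^ k) :=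
    (choose_summable σ).mul_left _
  have hs : Summable fun k : ℕ => |r ^ σ * Ring.choose σ k * ((1 - r) / r) ^ k| :=
    hs0.of_nonneg_of_le (fun _ => abs_nonneg _) hterm
  refine mult_series hp (J_mult hp) (fun ξ => ?_) hs ?_ ?_ ?_
  · rw [abs_of_nonneg (J_nonneg ξ)]
    exact J_le_one ξ
  · unfold K₀
    rw [Real.coe_toNNReal _ (by positivity), ← tsum_mul_left]
    exact hs.tsum_le_tsum hterm hs0
  · apply Continuous.rpow_const
    · exact continuous_const.add (continuous_const.mul J_continuous)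
    · intro ξ
      left
      rw [hbr]
      exact (mul_pos hr (hpos ξ)).ne'
  · intro ξ
    have h := (binom_hasSum σ ((1 - r) / r * J ξ) ((hx ξ).trans_lt (by norm_num))).mul_left (r ^ σ)
    rw [hbr, Real.mul_rpow hr.le (hpos ξ).le]
    refine h.congr_fun ?_
    intro k
    rw [mul_pow]
    ring

end Pool.Agent.Q93.LSP
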