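import Mathlib
import Pool.Agent.Q93.LSP.B
set_option autoImplicit false

/-! Fourier multiplier operators on Schwartz functions: dilations and translations. -/

namespace Pool.Agent.Q93.LSP

open MeasureTheory Set Filter Topology ProbabilityTheory Module
open scoped ENNReal NNReal FourierTransform RealInnerProductSpace SchwartzMap

variable {E : Type*} [NormedAddCommGroup E] [InnerProductSpace ℝ E] [FiniteDimensional ℝ E]
  [MeasurableSpace E] [BorelSpace E]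

/-- the operator with symbol `a` -/
noncomputable def mu (a : E → ℂ) (u : 𝓢(E, ℂ)) : E → ℂ := 𝓕⁻ fun ξ => a ξ * 𝓕 (u : E → ℂ) ξ

lemma ft_int (u : 𝓢(E, ℂ)) : Integrable (𝓕 (u : E → ℂ)) := by
  rw [← SchwartzMap.fourier_coe]
  exact (𝓕 u).integrable

lemma ft_apply (u : E → ℂ) (ξ : E) : 𝓕 u ξ = ∫ x, (𝐞 (-⟪x, ξ⟫) : ℂ) * u x := by
  rw [Real.fourier_eq]
  rfl

/-- `x ↦ u(x/ρ)` -/
noncomputable def dil (ρ : ℝ) (u : 𝓢(E, ℂ)) : 𝓢(E, ℂ) :=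
  if h : ρ ≠ 0 then SchwartzMap.compCLMOfContinuousLinearEquiv ℝ
    (ContinuousLinearEquiv.smulLeft (Units.mk0 ρ⁻¹ (inv_ne_zero h))) u else u

lemma dil_apply {ρ : ℝ} (h : ρ ≠ 0) (u : 𝓢(E, ℂ)) (x : E) : dil ρ u x = u (ρ⁻¹ • x) := by
  unfold dil
  rw [dif_pos h]
  rfl

lemma dil_dil {ρ σ : ℝ} (h : ρ ≠ 0) (k : σ ≠ 0) (u : 𝓢(E, ℂ)) :
    dil ρ (dil σ u) = dil (ρ * σ) u := by
  ext x
  rw [dil_apply h, dil_apply k, dil_apply (mul_ne_zero h k), smul_smul, mul_inv]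
  rw [mul_comm]

lemma dil_one (u : 𝓢(E, ℂ)) : dil 1 u = u := by
  ext x
  rw [dil_apply one_ne_zero, inv_one, one_smul]

lemma ft_dil {ρ : ℝ} (h : 0 < ρ) (u : 𝓢(E, ℂ)) (ξ : E) :
    𝓕 (dil ρ u : E → ℂ) ξ = (ρ : ℂ) ^ finrank ℝ E * 𝓕 (u : E → ℂ) (ρ • ξ) := by
  have e : (fun x : E => (𝐞 (-⟪x, ξ⟫) : ℂ) * dil ρ u x)
      = fun x => (fun y : E => (𝐞 (-⟪y, ρ • ξ⟫) : ℂ) * u y) (ρ⁻¹ • x) := by
    ext x
    simp only
    rw [dil_apply h.ne', real_inner_smul_left, real_inner_smul_right, inv_mul_cancel_left₀ h.ne']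
  have k := Measure.integral_comp_inv_smul_of_nonneg (μ := (volume : Measure E))
    (fun y : E => (𝐞 (-⟪y, ρ • ξ⟫) : ℂ) * u y) h.le
  rw [ft_apply, e, k, ft_apply, Complex.real_smul]
  push_cast
  rfl

lemma mu_dil {ρ : ℝ} (h : 0 < ρ) (a : E → ℂ) (u : 𝓢(E, ℂ)) (x : E) :
    mu a (dil ρ u) x = mu (fun ξ => a (ρ⁻¹ • ξ)) u (ρ⁻¹ • x) := by
  unfold mu
  rw [finv_apply, finv_apply]
  have e : (fun ξ : E => (𝐞 ⟪ξ, x⟫ : ℂ) * (a ξ * 𝓕 (dil ρ u : E → ℂ) ξ))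
      = fun ξ => (fun η : E => (ρ : ℂ) ^ finrank ℝ E *
        ((𝐞 ⟪η, ρ⁻¹ • x⟫ : ℂ) * (a (ρ⁻¹ • η) * 𝓕 (u : E → ℂ) η))) (ρ • ξ) := by
    ext ξ
    simp only
    rw [ft_dil h, real_inner_smul_left, real_inner_smul_right, mul_inv_cancel_left₀ h.ne',
      smul_smul, inv_mul_cancel₀ h.ne', one_smul]
    ring
  have k := Measure.integral_comp_smul_of_nonneg (μ := (volume : Measure E))
    (fun η : E => (ρ : ℂ) ^ finrank ℝ E *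
        ((𝐞 ⟪η, ρ⁻¹ • x⟫ : ℂ) * (a (ρ⁻¹ • η) * 𝓕 (u : E → ℂ) η))) ρ (hR := h.le)
  rw [e, k, integral_const_mul, Complex.real_smul]
  push_cast
  rw [← mul_assoc, inv_mul_cancel₀, one_mul]
  exact pow_ne_zero _ (by exact_mod_cast h.ne')

/-- `x ↦ u(x - y)` -/
noncomputable def tr (y : E) (u : 𝓢(E, ℂ)) : 𝓢(E, ℂ) := SchwartzMap.compSubConstCLM ℂ y u

lemma tr_apply (y : E) (u : 𝓢(E, ℂ)) (x : E) : tr y u x = u (x - y) := rfl

lemma ft_tr (y : E) (u : 𝓢(E, ℂ)) (ξ : E) :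
    𝓕 (tr y u : E → ℂ) ξ = (𝐞 (-⟪y, ξ⟫) : ℂ) * 𝓕 (u : E → ℂ) ξ := by
  have e : (fun x : E => (𝐞 (-⟪x, ξ⟫) : ℂ) * tr y u x)
      = fun x => (fun z : E => (𝐞 (-⟪y, ξ⟫) : ℂ) * ((𝐞 (-⟪z, ξ⟫) : ℂ) * u z)) (x - y) := by
    ext x
    simp only
    rw [tr_apply, ← mul_assoc, ← char_add]
    congr 3
    rw [inner_sub_left]
    ring
  rw [ft_apply, e, integral_sub_right_eq_self (fun z : E => (𝐞 (-⟪y, ξ⟫) : ℂ) *
    ((𝐞 (-⟪z, ξ⟫) : ℂ) * u z)), integral_const_mul, ft_apply]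

lemma mu_tr (y : E) (a : E → ℂ) (u : 𝓢(E, ℂ)) (x : E) : mu a (tr y u) x = mu a u (x - y) := by
  unfold mu
  rw [finv_apply, finv_apply]
  congr 1
  ext ξ
  rw [ft_tr, inner_sub_right, sub_eq_add_neg, char_add, real_inner_comm y ξ]
  ring

lemma ft_add (u v : 𝓢(E, ℂ)) (ξ : E) :
    𝓕 ((u + v : 𝓢(E, ℂ)) : E → ℂ) ξ = 𝓕 (u : E → ℂ) ξ + 𝓕 (v : E → ℂ) ξ := by
  rw [← SchwartzMap.fourier_coe, ← SchwartzMap.fourier_coe, ← SchwartzMap.fourier_coe,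
    FourierTransform.fourier_add]
  rfl

lemma ft_smul (c : ℂ) (u : 𝓢(E, ℂ)) (ξ : E) :
    𝓕 ((c • u : 𝓢(E, ℂ)) : E → ℂ) ξ = c * 𝓕 (u : E → ℂ) ξ := by
  rw [← SchwartzMap.fourier_coe, ← SchwartzMap.fourier_coe, FourierTransform.fourier_smul]
  rfl

/-- symbols for which `mu a u` is defined by an absolutely convergent integral for all `u` -/
def Sym (a : E → ℂ) : Prop := ∀ u : 𝓢(E, ℂ), Integrable fun ξ => a ξ * 𝓕 (u : E → ℂ) ξ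

lemma mu_add {a : E → ℂ} (ha : Sym a) (u v : 𝓢(E, ℂ)) (x : E) :
    mu a (u + v) x = mu a u x + mu a v x := by
  have e : (fun ξ => a ξ * 𝓕 ((u + v : 𝓢(E, ℂ)) : E → ℂ) ξ)
      = fun ξ => a ξ * 𝓕 (u : E → ℂ) ξ + a ξ * 𝓕 (v : E → ℂ) ξ := by
    ext ξ
    rw [ft_add, mul_add]
  unfold mu
  rw [← finv_add (ha u) (ha v), e]

lemma mu_smul (a : E → ℂ) (c : ℂ) (u : 𝓢(E, ℂ)) (x : E) :
    mu a (c • u) x = c * mu a u x := by
  have e : (fun ξ => a ξ * 𝓕 ((c • u : 𝓢(E, ℂ)) : E → ℂ) ξ)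
      = fun ξ => c * (a ξ * 𝓕 (u : E → ℂ) ξ) := by
    ext ξ
    rw [ft_smul]
    ring
  unfold mu
  rw [← finv_const_mul, e]

lemma mu_zero (a : E → ℂ) (x : E) : mu a (0 : 𝓢(E, ℂ)) x = 0 := by
  have := mu_smul a 0 (0 : 𝓢(E, ℂ)) x
  rwa [zero_smul, zero_mul] at this

lemma mu_sum {ι : Type*} (s : Finset ι) {a : E → ℂ} (ha : Sym a) (u : ι → 𝓢(E, ℂ)) (x : E) :
    mu a (∑ i ∈ s, u i) x = ∑ i ∈ s, mu a (u i) x := by
  classical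
  induction s using Finset.induction_on with
  | empty => simpa using mu_zero a x
  | insert i s hi ih => rw [Finset.sum_insert hi, Finset.sum_insert hi, mu_add ha, ih]

lemma mu_cont {a : E → ℂ} (ha : Sym a) (u : 𝓢(E, ℂ)) : Continuous (mu a u) :=
  finv_continuous (ha u)

/-- the symbol of `(1 - Δ)^(s/2)` -/
noncomputable def bs (s : ℝ) (ξ : E) : ℂ := ((br ξ ^ (s / 2) : ℝ) : ℂ)

lemma bs_tg (s : ℝ) : (bs s : E → ℂ).HasTemperateGrowth := by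
  have h1 := Function.hasTemperateGrowth_one_add_norm_sq_rpow E (s / 2)
  have h2 : (fun x : E => (2 * Real.pi) • x).HasTemperateGrowth :=
    ((2 * Real.pi) • ContinuousLinearMap.id ℝ E).hasTemperateGrowth
  have h3 := h1.comp h2
  have e : (bs s : E → ℂ) = Complex.ofReal ∘
      ((fun x : E => (1 + ‖x‖ ^ 2) ^ (s / 2)) ∘ fun x : E => (2 * Real.pi) • x) := by
    ext ξ
    simp only [Function.comp_apply, bs, br]
    rw [norm_smul, mul_pow, Real.norm_eq_abs, sq_abs]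
    congr 3
    ring
  rw [e]
  exact Function.Complex.hasTemperateGrowth_ofReal.comp h3

/-- `(1 - Δ)^(s/2) u` as a Schwartz function -/
lemma bs_schwartz (s : ℝ) (u : 𝓢(E, ℂ)) : ∃ g : 𝓢(E, ℂ),
    (∀ ξ, g ξ = bs s ξ * 𝓕 (u : E → ℂ) ξ) ∧ mu (bs s) u = ⇑(𝓕⁻ g : 𝓢(E, ℂ)) := by
  refine ⟨SchwartzMap.smulLeftCLM ℂ (bs s) (𝓕 u), ?_, ?_⟩
  · intro ξ
    rw [SchwartzMap.smulLeftCLM_apply_apply (bs_tg s), smul_eq_mul]
    rfl
  · rw [SchwartzMap.fourierInv_coe]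
    unfold mu
    congr 1
    ext ξ
    rw [SchwartzMap.smulLeftCLM_apply_apply (bs_tg s), smul_eq_mul]
    rfl

lemma bs_sym (s : ℝ) : Sym (bs s : E → ℂ) := by
  intro u
  obtain ⟨g, hg, -⟩ := bs_schwartz s u
  refine g.integrable.congr ?_
  filter_upwards with ξ
  exact hg ξ

/-- the norm of `L^p_s` -/
noncomputable def nm (q : ℝ≥0∞) (s : ℝ) (u : 𝓢(E, ℂ)) : ℝ≥0∞ := eLpNorm (mu (bs s) u) q volume

lemma nm_memLp (q : ℝ≥0∞) (s : ℝ) (u : 𝓢(E, ℂ)) : MemLp (mu (bs s) u) q volume := by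
  obtain ⟨g, -, hg⟩ := bs_schwartz s u
  rw [hg]
  exact (𝓕⁻ g).memLp q volume

lemma nm_lt_top (q : ℝ≥0∞) (s : ℝ) (u : 𝓢(E, ℂ)) : nm q s u < ⊤ := (nm_memLp q s u).2

lemma nm_eq_zero {q : ℝ≥0∞} (hq : q ≠ 0) {s : ℝ} {u : 𝓢(E, ℂ)} (h : nm q s u = 0) : u = 0 := by
  obtain ⟨g, hg1, hg⟩ := bs_schwartz s u
  have h1 : mu (bs s) u = 0 := by
    have h2 := (eLpNorm_eq_zero_iff (mu_cont (bs_sym s) u).aestronglyMeasurable hq).1 h
    exact (Continuous.ae_eq_iff_eq volume (mu_cont (bs_sym s) u) continuous_zero).1 h2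
  have h3 : (𝓕⁻ g : 𝓢(E, ℂ)) = 0 := by
    ext x
    rw [← hg, h1]
    rfl
  have h4 : g = 0 := by
    have : 𝓕 (𝓕⁻ g) = g := FourierTransform.fourier_fourierInv_eq g
    rw [← this, h3]
    exact FourierTransform.fourier_zero
  have h5 : (𝓕 u : 𝓢(E, ℂ)) = 0 := by
    ext ξ
    have h6 := hg1 ξ
    rw [h4] at h6
    have h7 : bs s ξ ≠ 0 := by
      unfold bs
      exact_mod_cast (Real.rpow_pos_of_pos (br_pos ξ) _).ne'
    have h8 : 𝓕 (u : E → ℂ) ξ = 0 := by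
      have : bs s ξ * 𝓕 (u : E → ℂ) ξ = 0 := by
        rw [← h6]
        rfl
      exact (mul_eq_zero.1 this).resolve_left h7
    exact h8
  have : 𝓕⁻ (𝓕 u) = u := FourierTransform.fourierInv_fourier_eq u
  rw [← this, h5]
  exact FourierTransform.fourierInv_zero

lemma nm_smul (q : ℝ≥0∞) (s : ℝ) (c : ℂ) (u : 𝓢(E, ℂ)) : nm q s (c • u) = ‖c‖ₑ * nm q s u := by
  unfold nm
  rw [← eLpNorm_const_smul]
  congr 1
  ext x
  rw [mu_smul]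
  rfl

lemma lint_dil {ρ : ℝ} (h : 0 < ρ) {f : E → ℝ≥0∞} (hf : Measurable f) :
    ∫⁻ x, f (ρ⁻¹ • x) = ENNReal.ofReal (ρ ^ finrank ℝ E) * ∫⁻ x, f x := by
  have h0 : ρ⁻¹ ≠ 0 := inv_ne_zero h.ne'
  rw [← lintegral_map (f := f) (g := fun x : E => ρ⁻¹ • x) hf (by fun_prop),
    Measure.map_addHaar_smul volume h0, lintegral_smul_measure, inv_pow, inv_inv,
    abs_of_nonneg (pow_nonneg h.le _)]
  rfl

lemma eLp_dil {p ρ : ℝ} (hp : 1 ≤ p) (h : 0 < ρ) {f : E → ℂ} (hf : Measurable f) :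
    eLpNorm (fun x => f (ρ⁻¹ • x)) (ENNReal.ofReal p) volume
      = ENNReal.ofReal (ρ ^ finrank ℝ E) ^ (1 / p) * eLpNorm f (ENNReal.ofReal p) volume := by
  have hp0 : 0 < p := by linarith
  have hq0 : ENNReal.ofReal p ≠ 0 := by simpa using hp0
  have hqt : ENNReal.ofReal p ≠ ⊤ := ENNReal.ofReal_ne_top
  have hpr : (ENNReal.ofReal p).toReal = p := ENNReal.toReal_ofReal hp0.le
  rw [eLpNorm_eq_lintegral_rpow_enorm_toReal hq0 hqt, eLpNorm_eq_lintegral_rpow_enorm_toReal hq0 hqt,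
    hpr, lint_dil h (f := fun x => ‖f x‖ₑ ^ p) (hf.enorm.pow_const p),
    ENNReal.mul_rpow_of_nonneg _ _ (by positivity)]

end Pool.Agent.Q93.LSP
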