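import Mathlib
import Pool.Agent.Q93.LSP.C
set_option autoImplicit false

/-! Dilations are bounded on the Bessel potential spaces, uniformly for factors in compact sets. -/

namespace Pool.Agent.Q93.LSP

open MeasureTheory Set Filter Topology ProbabilityTheory Module
open scoped ENNReal NNReal FourierTransform RealInnerProductSpace SchwartzMap

variable {E : Type*} [NormedAddCommGroup E] [InnerProductSpace ℝ E] [FiniteDimensional ℝ E]
  [MeasurableSpace E] [BorelSpace E]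

lemma bs_dil (s : ℝ) {ρ : ℝ} (h : 0 < ρ) (ξ : E) :
    bs s (ρ⁻¹ • ξ) = (((((ρ ^ 2)⁻¹ + (1 - (ρ ^ 2)⁻¹) * J ξ) ^ (s / 2) : ℝ)) : ℂ) * bs s ξ := by
  unfold bs
  rw [← Complex.ofReal_mul]
  congr 1
  have hb := br_pos ξ
  have hr : 0 < (ρ ^ 2)⁻¹ := by positivity
  have e : br (ρ⁻¹ • ξ) = ((ρ ^ 2)⁻¹ + (1 - (ρ ^ 2)⁻¹) * J ξ) * br ξ := by
    have hJ : J ξ * br ξ = 1 := inv_mul_cancel₀ hb.ne'
    have h1 : ((ρ ^ 2)⁻¹ + (1 - (ρ ^ 2)⁻¹) * J ξ) * br ξ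
        = (ρ ^ 2)⁻¹ * br ξ + (1 - (ρ ^ 2)⁻¹) * (J ξ * br ξ) := by ring
    rw [h1, hJ]
    unfold br
    rw [norm_smul, mul_pow, Real.norm_eq_abs, sq_abs, inv_pow]
    ring
  have hpos : 0 < (ρ ^ 2)⁻¹ + (1 - (ρ ^ 2)⁻¹) * J ξ := by
    have h1 := br_pos (ρ⁻¹ • ξ)
    rw [e] at h1
    exact (pos_iff_pos_of_mul_pos h1).2 hb
  rw [e, Real.mul_rpow hpos.le hb.le]

lemma mult_mu {q : ℝ≥0∞} {K : ℝ≥0} {m : E → ℝ} (hm : Mult q K m) {a : E → ℂ} (ha : Sym a)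
    (u : 𝓢(E, ℂ)) : eLpNorm (mu (fun ξ => (m ξ : ℂ) * a ξ) u) q volume
      ≤ K * eLpNorm (mu a u) q volume := by
  have h := hm.2.2 _ (ha u)
  have e : mu (fun ξ => (m ξ : ℂ) * a ξ) u
      = 𝓕⁻ fun ξ => (m ξ : ℂ) * (a ξ * 𝓕 (u : E → ℂ) ξ) := by
    unfold mu
    congr 1
    ext ξ
    ring
  rw [e]
  exact h

lemma nm_dil_near {p : ℝ} (hp : 1 ≤ p) (s : ℝ) {ρ : ℝ} (h : 0 < ρ) (h1 : 2 / 3 ≤ (ρ ^ 2)⁻¹)
    (h2 : (ρ ^ 2)⁻¹ ≤ 2) (u : 𝓢(E, ℂ)) :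
    nm (ENNReal.ofReal p) s (dil ρ u)
      ≤ ENNReal.ofReal (2 ^ finrank ℝ E) ^ (1 / p) * K₀ (s / 2) * nm (ENNReal.ofReal p) s u := by
  have hρ2 : ρ ≤ 2 := by
    by_contra hc
    push Not at hc
    have : (ρ ^ 2)⁻¹ < (2 ^ 2)⁻¹ := by
      apply inv_strictAnti₀ (by norm_num)
      nlinarith
    norm_num at this
    linarith
  have e : mu (bs s) (dil ρ u) = fun x => mu (fun ξ => bs s (ρ⁻¹ • ξ)) u (ρ⁻¹ • x) := by
    ext x
    exact mu_dil h _ _ _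
  have e2 : (fun ξ : E => bs s (ρ⁻¹ • ξ)) = fun ξ =>
      (((((ρ ^ 2)⁻¹ + (1 - (ρ ^ 2)⁻¹) * J ξ) ^ (s / 2) : ℝ)) : ℂ) * bs s ξ := by
    ext ξ
    exact bs_dil s h ξ
  have hm := mult_near (E := E) hp (s / 2) _ h1 h2
  have hc : Continuous (mu (fun ξ => bs s (ρ⁻¹ • ξ)) u) := by
    rw [e2]
    apply mu_cont
    intro v
    have := hm.int (bs_sym s v)
    refine this.congr ?_
    filter_upwards with ξ
    ring
  unfold nm
  rw [e, eLp_dil hp h hc.measurable, e2, mul_assoc]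
  gcongr
  exact mult_mu hm (bs_sym s) u

lemma nm_dil {p : ℝ} (hp : 1 ≤ p) (s B : ℝ) (hB : 1 ≤ B) : ∃ K : ℝ≥0, ∀ ρ : ℝ, B⁻¹ ≤ ρ → ρ ≤ B →
    ∀ u : 𝓢(E, ℂ), nm (ENNReal.ofReal p) s (dil ρ u) ≤ K * nm (ENNReal.ofReal p) s u := by
  have hl : 0 < Real.log (3 / 2) := Real.log_pos (by norm_num)
  obtain ⟨N, hN⟩ := exists_nat_gt (max 1 (2 * Real.log B / Real.log (3 / 2)))
  have hN1 : (1 : ℝ) < N := (le_max_left _ _).trans_lt hN
  have hN0 : (0 : ℝ) < N := by linarith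
  have hN2 : 2 * Real.log B / Real.log (3 / 2) < N := (le_max_right _ _).trans_lt hN
  have hB0 : 0 < B := by linarith
  have hNe : (N : ℝ) ≠ 0 := hN0.ne'
  set K₁ : ℝ≥0∞ := ENNReal.ofReal (2 ^ finrank ℝ E) ^ (1 / p) * K₀ (s / 2) with hK₁
  have hp0 : 0 < p := by linarith
  have hK₁t : K₁ ≠ ⊤ := by
    rw [hK₁]
    apply ENNReal.mul_ne_top
    · exact ENNReal.rpow_ne_top_of_nonneg (by positivity) ENNReal.ofReal_ne_top
    · exact ENNReal.coe_ne_top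
  refine ⟨(K₁ ^ N).toNNReal, ?_⟩
  intro ρ hρ1 hρ2 u
  rw [ENNReal.coe_toNNReal (ENNReal.pow_ne_top hK₁t)]
  have hρ0 : 0 < ρ := (inv_pos.2 hB0).trans_le hρ1
  set σ : ℝ := ρ ^ (1 / (N : ℝ)) with hσ
  have hσ0 : 0 < σ := Real.rpow_pos_of_pos hρ0 _
  have hσN : σ ^ N = ρ := by
    rw [hσ, ← Real.rpow_natCast, ← Real.rpow_mul hρ0.le, one_div, inv_mul_cancel₀ hNe, Real.rpow_one]
  have hlog : |Real.log ρ| ≤ Real.log B := by
    rw [abs_le]
    constructor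
    · rw [← Real.log_inv]
      exact Real.log_le_log (inv_pos.2 hB0) hρ1
    · exact Real.log_le_log hρ0 hρ2
  have hlog2 : |Real.log ((σ ^ 2)⁻¹)| ≤ Real.log (3 / 2) := by
    rw [Real.log_inv, Real.log_pow, hσ, Real.log_rpow hρ0, abs_neg, abs_mul, abs_mul,
      abs_of_pos (by positivity : (0 : ℝ) < 1 / N)]
    have : (2 : ℝ) * Real.log B ≤ N * Real.log (3 / 2) := by
      rw [div_lt_iff₀ hl] at hN2
      exact hN2.le
    have h3 : |((2 : ℕ) : ℝ)| = 2 := by norm_num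
    rw [h3]
    calc (2 : ℝ) * (1 / N * |Real.log ρ|) ≤ 2 * (1 / N * Real.log B) := by gcongr
      _ = (2 * Real.log B) / N := by ring
      _ ≤ Real.log (3 / 2) := by
        rw [div_le_iff₀ hN0]
        linarith
  have hpos : (0 : ℝ) < (σ ^ 2)⁻¹ := by positivity
  have h1 : 2 / 3 ≤ (σ ^ 2)⁻¹ := by
    rw [← Real.log_le_log_iff (by norm_num) hpos]
    have : Real.log (2 / 3) = - Real.log (3 / 2) := by
      rw [← Real.log_inv]
      norm_num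
    rw [this]
    exact (abs_le.1 hlog2).1
  have h2 : (σ ^ 2)⁻¹ ≤ 2 := by
    rw [← Real.log_le_log_iff hpos (by norm_num)]
    refine (abs_le.1 hlog2).2.trans ?_
    exact Real.log_le_log (by norm_num) (by norm_num)
  have key : ∀ k : ℕ, nm (ENNReal.ofReal p) s (dil (σ ^ k) u)
      ≤ K₁ ^ k * nm (ENNReal.ofReal p) s u := by
    intro k
    induction k with
    | zero => rw [pow_zero, pow_zero, dil_one, one_mul]
    | succ k ih =>
      have e : dil (σ ^ (k + 1)) u = dil σ (dil (σ ^ k) u) := by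
        rw [dil_dil hσ0.ne' (pow_pos hσ0 k).ne', pow_succ']
      rw [e]
      calc nm (ENNReal.ofReal p) s (dil σ (dil (σ ^ k) u))
          ≤ K₁ * nm (ENNReal.ofReal p) s (dil (σ ^ k) u) := nm_dil_near hp s hσ0 h1 h2 _
        _ ≤ K₁ * (K₁ ^ k * nm (ENNReal.ofReal p) s u) := mul_le_mul_right ih _
        _ = K₁ ^ (k + 1) * nm (ENNReal.ofReal p) s u := by
            rw [pow_succ']
            exact (mul_assoc _ _ _).symm
  have := key N
  rwa [hσN] at this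

/-! ### The wave equation -/

/-- symbol of `cos(t√(-Δ))` -/
noncomputable def cs (t : ℝ) (ξ : E) : ℂ := (Real.cos (2 * Real.pi * t * ‖ξ‖) : ℂ)

/-- symbol of `sin(t√(-Δ))/(t√(-Δ))` -/
noncomputable def sc (t : ℝ) (ξ : E) : ℂ := (Real.sinc (2 * Real.pi * t * ‖ξ‖) : ℂ)

lemma cs_le (t : ℝ) (ξ : E) : ‖cs t ξ‖ ≤ 1 := by
  unfold cs
  rw [Complex.norm_real]
  exact Real.abs_cos_le_one _

lemma sc_le (t : ℝ) (ξ : E) : ‖sc t ξ‖ ≤ 1 := by
  unfold sc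
  rw [Complex.norm_real]
  exact Real.abs_sinc_le_one _

lemma cs_cont : Continuous fun z : ℝ × E => cs z.1 z.2 := by
  unfold cs
  exact Complex.continuous_ofReal.comp (Real.continuous_cos.comp (by fun_prop))

lemma sc_cont : Continuous fun z : ℝ × E => sc z.1 z.2 := by
  unfold sc
  exact Complex.continuous_ofReal.comp (Real.continuous_sinc.comp (by fun_prop))

/-- bounded continuous families of symbols -/
def Fam (b : ℝ → E → ℂ) : Prop := (Continuous fun z : ℝ × E => b z.1 z.2) ∧ ∀ t ξ, ‖b t ξ‖ ≤ 1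

lemma Fam.cont_left {b : ℝ → E → ℂ} (hb : Fam b) (ξ : E) : Continuous fun t => b t ξ :=
  hb.1.comp (by fun_prop : Continuous fun t : ℝ => (t, ξ))

lemma Fam.cont_right {b : ℝ → E → ℂ} (hb : Fam b) (t : ℝ) : Continuous (b t) :=
  hb.1.comp (by fun_prop : Continuous fun ξ : E => (t, ξ))

lemma Fam.int {b : ℝ → E → ℂ} (hb : Fam b) (t : ℝ) {g : E → ℂ} (hg : Integrable g) :
    Integrable fun ξ => b t ξ * g ξ := by
  apply hg.bdd_mul (c := 1) (hb.cont_right t).aestronglyMeasurable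
  filter_upwards with ξ
  exact hb.2 t ξ

lemma Fam.sym {b : ℝ → E → ℂ} (hb : Fam b) (t : ℝ) : Sym (b t) := fun u => hb.int t (ft_int u)

lemma fam_cs : Fam (cs : ℝ → E → ℂ) := ⟨cs_cont, cs_le⟩

lemma fam_sc : Fam (sc : ℝ → E → ℂ) := ⟨sc_cont, sc_le⟩

lemma Fam.cont {b : ℝ → E → ℂ} (hb : Fam b) (u : 𝓢(E, ℂ)) :
    Continuous fun z : ℝ × E => mu (b z.1) u z.2 := by
  have e : (fun z : ℝ × E => mu (b z.1) u z.2)
      = fun z => ∫ ξ, (𝐞 ⟪ξ, z.2⟫ : ℂ) * (b z.1 ξ * 𝓕 (u : E → ℂ) ξ) := by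
    ext z
    exact finv_apply _ _
  rw [e]
  apply continuous_of_dominated (bound := fun ξ => ‖𝓕 (u : E → ℂ) ξ‖)
  · intro z
    exact (finv_int (hb.int z.1 (ft_int u)) z.2).aestronglyMeasurable
  · intro z
    filter_upwards with ξ
    rw [norm_mul, norm_char, one_mul, norm_mul]
    exact mul_le_of_le_one_left (norm_nonneg _) (hb.2 _ _)
  · exact (ft_int u).norm
  · filter_upwards with ξ
    apply Continuous.mul
    · exact char_continuous.comp (by fun_prop)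
    · exact ((hb.cont_left ξ).comp continuous_fst).mul continuous_const

lemma finv_zero_at_infty (g : E → ℂ) : Tendsto (𝓕⁻ g) (cocompact E) (𝓝 0) := by
  have h := tendsto_integral_exp_inner_smul_cocompact g
  have h2 : Tendsto (fun x : E => -x) (cocompact E) (cocompact E) :=
    (Homeomorph.neg E).isClosedEmbedding.tendsto_cocompact
  refine (h.comp h2).congr ?_
  intro x
  rw [finv_apply, Function.comp_apply]
  congr 1
  ext ξ
  rw [inner_neg_right, neg_neg]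
  rfl

lemma Fam.decay {b : ℝ → E → ℂ} (hb : Fam b) (u : 𝓢(E, ℂ)) {t : ℕ → ℝ} {t₀ : ℝ}
    (ht : Tendsto t atTop (𝓝 t₀)) {x : ℕ → E} (hx : Tendsto x atTop (cocompact E)) :
    Tendsto (fun n => mu (b (t n)) u (x n)) atTop (𝓝 0) := by
  have h1 : Tendsto (fun n => mu (b t₀) u (x n)) atTop (𝓝 0) :=
    (finv_zero_at_infty _).comp hx
  have h2 : Tendsto (fun n => ∫ ξ, ‖(b (t n) ξ - b t₀ ξ) * 𝓕 (u : E → ℂ) ξ‖) atTop (𝓝 0) := by
    have h3 := tendsto_integral_of_dominated_convergence (μ := (volume : Measure E))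
      (F := fun n ξ => ‖(b (t n) ξ - b t₀ ξ) * 𝓕 (u : E → ℂ) ξ‖) (f := fun _ => (0 : ℝ))
      (fun ξ => 2 * ‖𝓕 (u : E → ℂ) ξ‖)
      (fun n => (((hb.cont_right (t n)).sub (hb.cont_right t₀)).aestronglyMeasurable.mul
        (ft_int u).aestronglyMeasurable).norm)
      ((ft_int u).norm.const_mul 2)
      (fun n => by
        filter_upwards with ξ
        rw [norm_norm, norm_mul]
        gcongr
        refine (norm_sub_le _ _).trans ?_
        have := hb.2 (t n) ξ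
        have := hb.2 t₀ ξ
        linarith)
      (by
        filter_upwards with ξ
        have h4 : Tendsto (fun n => b (t n) ξ) atTop (𝓝 (b t₀ ξ)) :=
          ((hb.cont_left ξ).tendsto t₀).comp ht
        have h5 : Tendsto (fun n => (b (t n) ξ - b t₀ ξ) * 𝓕 (u : E → ℂ) ξ) atTop (𝓝 0) := by
          have := (h4.sub_const (b t₀ ξ)).mul_const (𝓕 (u : E → ℂ) ξ)
          simpa using this
        simpa using h5.norm)
    simpa using h3
  have h3 : Tendsto (fun n => mu (b (t n)) u (x n) - mu (b t₀) u (x n)) atTop (𝓝 0) := by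
    apply squeeze_zero_norm _ h2
    intro n
    have e : mu (b (t n)) u (x n) - mu (b t₀) u (x n)
        = 𝓕⁻ (fun ξ => (b (t n) ξ - b t₀ ξ) * 𝓕 (u : E → ℂ) ξ) (x n) := by
      unfold mu
      rw [finv_apply, finv_apply, finv_apply, ← integral_sub]
      · congr 1
        ext ξ
        ring
      · exact finv_int (hb.int _ (ft_int u)) _
      · exact finv_int (hb.int _ (ft_int u)) _
    rw [e]
    exact finv_le _ _
  simpa using h3.add h1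

/-- the solution of the wave equation with data `u` -/
noncomputable def wv (u : 𝓢(E, ℂ) × 𝓢(E, ℂ)) (t : ℝ) (x : E) : ℂ :=
  mu (cs t) u.1 x + t * mu (sc t) u.2 x

lemma wv_cont (u : 𝓢(E, ℂ) × 𝓢(E, ℂ)) : Continuous fun z : ℝ × E => wv u z.1 z.2 := by
  unfold wv
  exact (fam_cs.cont u.1).add ((Complex.continuous_ofReal.comp continuous_fst).mul
    (fam_sc.cont u.2))

lemma wv_cont_right (u : 𝓢(E, ℂ) × 𝓢(E, ℂ)) (t : ℝ) : Continuous (wv u t) := by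
  have h2 : Continuous fun x : E => (t, x) := continuous_const.prodMk continuous_id
  have h := Continuous.comp (g := fun z : ℝ × E => wv u z.1 z.2) (wv_cont u) h2
  exact h

lemma wv_decay (u : 𝓢(E, ℂ) × 𝓢(E, ℂ)) {t : ℕ → ℝ} {t₀ : ℝ}
    (ht : Tendsto t atTop (𝓝 t₀)) {x : ℕ → E} (hx : Tendsto x atTop (cocompact E)) :
    Tendsto (fun n => wv u (t n) (x n)) atTop (𝓝 0) := by
  have h1 := fam_cs.decay u.1 ht hx
  have h2 := fam_sc.decay u.2 ht hx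
  have h3 : Tendsto (fun n => ((t n : ℝ) : ℂ)) atTop (𝓝 (t₀ : ℂ)) :=
    (Complex.continuous_ofReal.tendsto t₀).comp ht
  have h4 := h1.add (h3.mul h2)
  rw [mul_zero, add_zero] at h4
  exact h4

/-- dilation of data -/
noncomputable def D (ρ : ℝ) (u : 𝓢(E, ℂ) × 𝓢(E, ℂ)) : 𝓢(E, ℂ) × 𝓢(E, ℂ) :=
  (dil ρ u.1, ((ρ⁻¹ : ℝ) : ℂ) • dil ρ u.2)

/-- translation of data -/
noncomputable def T (y : E) (u : 𝓢(E, ℂ) × 𝓢(E, ℂ)) : 𝓢(E, ℂ) × 𝓢(E, ℂ) := (tr y u.1, tr y u.2)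

lemma wv_D {ρ : ℝ} (h : 0 < ρ) (u : 𝓢(E, ℂ) × 𝓢(E, ℂ)) (t : ℝ) (x : E) :
    wv (D ρ u) t x = wv u (t / ρ) (ρ⁻¹ • x) := by
  unfold wv D
  simp only
  have e1 : (fun ξ : E => cs t (ρ⁻¹ • ξ)) = cs (t / ρ) := by
    ext ξ
    unfold cs
    rw [norm_smul, Real.norm_eq_abs, abs_of_pos (inv_pos.2 h)]
    congr 2
    ring
  have e2 : (fun ξ : E => sc t (ρ⁻¹ • ξ)) = sc (t / ρ) := by
    ext ξ
    unfold sc
    rw [norm_smul, Real.norm_eq_abs, abs_of_pos (inv_pos.2 h)]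
    congr 2
    ring
  rw [mu_smul, mu_dil h, mu_dil h, e1, e2]
  push_cast
  ring

lemma wv_T (y : E) (u : 𝓢(E, ℂ) × 𝓢(E, ℂ)) (t : ℝ) (x : E) : wv (T y u) t x = wv u t (x - y) := by
  unfold wv T
  simp only
  rw [mu_tr, mu_tr]

lemma wv_sum {ι : Type*} (s : Finset ι) (u : ι → 𝓢(E, ℂ) × 𝓢(E, ℂ)) (t : ℝ) (x : E) :
    wv (∑ i ∈ s, u i) t x = ∑ i ∈ s, wv (u i) t x := by
  unfold wv
  rw [Prod.fst_sum, Prod.snd_sum, mu_sum _ (fam_cs.sym t), mu_sum _ (fam_sc.sym t),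
    Finset.sum_add_distrib, Finset.mul_sum]

lemma wv_smul (c : ℂ) (u : 𝓢(E, ℂ) × 𝓢(E, ℂ)) (t : ℝ) (x : E) :
    wv (c • u) t x = c * wv u t x := by
  unfold wv
  rw [Prod.smul_fst, Prod.smul_snd, mu_smul, mu_smul]
  ring

lemma wv_zero (t : ℝ) (x : E) : wv (0 : 𝓢(E, ℂ) × 𝓢(E, ℂ)) t x = 0 := by
  unfold wv
  rw [Prod.fst_zero, Prod.snd_zero, mu_zero, mu_zero]
  ring

/-- the `p`-th power of the `L^p` norm of the solution at time `t` -/
noncomputable def en (p : ℝ) (u : 𝓢(E, ℂ) × 𝓢(E, ℂ)) (t : ℝ) : ℝ≥0∞ := ∫⁻ x, ‖wv u t x‖ₑ ^ p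

lemma en_D {p ρ : ℝ} (h : 0 < ρ) (u : 𝓢(E, ℂ) × 𝓢(E, ℂ)) (t : ℝ) :
    en p (D ρ u) t = ENNReal.ofReal (ρ ^ finrank ℝ E) * en p u (t / ρ) := by
  unfold en
  simp_rw [wv_D h]
  exact lint_dil h (f := fun x => ‖wv u (t / ρ) x‖ₑ ^ p)
    ((wv_cont_right u _).measurable.enorm.pow_const p)

lemma en_lsc {p : ℝ} (u : 𝓢(E, ℂ) × 𝓢(E, ℂ)) {t : ℕ → ℝ} {t₀ : ℝ}
    (ht : Tendsto t atTop (𝓝 t₀)) : en p u t₀ ≤ liminf (fun n => en p u (t n)) atTop := by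
  unfold en
  have h1 : ∀ x, ‖wv u t₀ x‖ₑ ^ p = liminf (fun n => ‖wv u (t n) x‖ₑ ^ p) atTop := by
    intro x
    have h3 : Continuous fun t : ℝ => (t, x) := continuous_id.prodMk continuous_const
    have h4 := Continuous.comp (g := fun z : ℝ × E => wv u z.1 z.2) (wv_cont u) h3
    have h2 : Tendsto (fun n => wv u (t n) x) atTop (𝓝 (wv u t₀ x)) := (h4.tendsto t₀).comp ht
    exact (((ENNReal.continuous_rpow_const (y := p)).tendsto _).comp h2.enorm).liminf_eq.symm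
  simp_rw [h1]
  exact lintegral_liminf_le fun n => (wv_cont_right u _).measurable.enorm.pow_const p

lemma en_meas {p : ℝ} (u : 𝓢(E, ℂ) × 𝓢(E, ℂ)) : Measurable (en p u) := by
  unfold en
  have h : Measurable fun z : ℝ × E => ‖wv u z.1 z.2‖ₑ ^ p :=
    (wv_cont u).measurable.enorm.pow_const p
  exact h.lintegral_prod_right'

end Pool.Agent.Q93.LSP
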