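import Mathlib
import Pool.Agent.Q93.LSP.D
set_option autoImplicit false

/-! Superposition of far translates. -/

namespace Pool.Agent.Q93.LSP

open MeasureTheory Set Filter Topology ProbabilityTheory Module
open scoped ENNReal NNReal FourierTransform RealInnerProductSpace SchwartzMap

variable {E : Type*} [NormedAddCommGroup E] [InnerProductSpace ℝ E] [FiniteDimensional ℝ E]
  [MeasurableSpace E] [BorelSpace E]

lemma pw_eq {p : ℝ} (hp : 1 ≤ p) (f : E → ℂ) :
    eLpNorm f (ENNReal.ofReal p) volume ^ p = ∫⁻ x, ‖f x‖ₑ ^ p := by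
  have hp0 : 0 < p := by linarith
  have hq0 : ENNReal.ofReal p ≠ 0 := by simpa using hp0
  have hqt : ENNReal.ofReal p ≠ ⊤ := ENNReal.ofReal_ne_top
  have hpr : (ENNReal.ofReal p).toReal = p := ENNReal.toReal_ofReal hp0.le
  rw [eLpNorm_eq_lintegral_rpow_enorm_toReal hq0 hqt, hpr, ← ENNReal.rpow_mul, one_div,
    inv_mul_cancel₀ hp0.ne', ENNReal.rpow_one]

lemma en_eq {p : ℝ} (hp : 1 ≤ p) (u : 𝓢(E, ℂ) × 𝓢(E, ℂ)) (t : ℝ) :
    en p u t = eLpNorm (wv u t) (ENNReal.ofReal p) volume ^ p := (pw_eq hp _).symm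

lemma single_sum {p : ℝ} (hp : 0 < p) (s : Finset ℕ) (a : ℕ → ℂ)
    (h : ∀ i ∈ s, ∀ j ∈ s, a i ≠ 0 → a j ≠ 0 → i = j) :
    ‖∑ i ∈ s, a i‖ₑ ^ p ≤ ∑ i ∈ s, ‖a i‖ₑ ^ p := by
  by_cases h0 : ∃ i ∈ s, a i ≠ 0
  · obtain ⟨i, hi, hai⟩ := h0
    have e : ∑ j ∈ s, a j = a i := by
      apply Finset.sum_eq_single_of_mem i hi
      intro j hj hji
      by_contra hc
      exact hji (h j hj i hi hc hai)
    rw [e]
    exact Finset.single_le_sum (f := fun j => ‖a j‖ₑ ^ p) (fun _ _ => zero_le) hi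
  · push Not at h0
    rw [Finset.sum_eq_zero h0, enorm_zero, ENNReal.zero_rpow_of_pos hp]
    exact zero_le

lemma trunc {p : ℝ} (hp : 1 ≤ p) {g : E → ℂ} (hg : MemLp g (ENNReal.ofReal p) volume)
    {ε : ℝ≥0∞} (hε : 0 < ε) :
    ∀ᶠ R : ℕ in atTop, eLpNorm ((Metric.ball (0 : E) R)ᶜ.indicator g) (ENNReal.ofReal p) volume
      ≤ ε := by
  have hp0 : 0 < p := by linarith
  have h1 : Tendsto (fun R : ℕ => ∫⁻ x, ‖(Metric.ball (0 : E) R)ᶜ.indicator g x‖ₑ ^ p) atTop
      (𝓝 0) := by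
    have h2 : Tendsto (fun R : ℕ => ∫⁻ x, ‖(Metric.ball (0 : E) R)ᶜ.indicator g x‖ₑ ^ p) atTop
        (𝓝 (∫⁻ _x : E, 0)) := by
      apply tendsto_lintegral_of_dominated_convergence' (fun x => ‖g x‖ₑ ^ p)
      · intro R
        exact ((hg.1.indicator measurableSet_ball.compl).enorm.pow_const p)
      · intro R
        filter_upwards with x
        gcongr
        rw [enorm_indicator_eq_indicator_enorm]
        exact indicator_le_self _ _ _
      · rw [← pw_eq hp]
        exact ENNReal.rpow_ne_top_of_nonneg hp0.le hg.2.ne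
      · filter_upwards with x
        obtain ⟨N, hN⟩ := exists_nat_gt ‖x‖
        apply tendsto_const_nhds.congr'
        filter_upwards [eventually_ge_atTop N] with R hR
        have hx : x ∉ (Metric.ball (0 : E) R)ᶜ := by
          rw [mem_compl_iff, not_not, mem_ball_zero_iff]
          exact hN.trans_le (by exact_mod_cast hR)
        rw [indicator_of_notMem hx, enorm_zero, ENNReal.zero_rpow_of_pos hp0]
    simpa using h2
  have h2 : 0 < ε ^ p ∨ ε = ⊤ := by
    rcases eq_or_ne ε ⊤ with h | h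
    · right; exact h
    · left
      exact ENNReal.rpow_pos hε h
  rcases h2 with h2 | h2
  · filter_upwards [(tendsto_order.1 h1).2 _ h2] with R hR
    rw [← pw_eq hp] at hR
    exact ((ENNReal.rpow_lt_rpow_iff hp0).1 hR).le
  · filter_upwards with R
    rw [h2]
    exact le_top

/-- the translations -/
noncomputable def y (e : E) (m k : ℕ) : E := ((m : ℝ) * k) • e

lemma y_dist {e : E} (he : ‖e‖ = 1) (m : ℕ) {j k : ℕ} (h : j ≠ k) : (m : ℝ) ≤ ‖y e m j - y e m k‖ := by
  unfold y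
  rw [← sub_smul, norm_smul, he, mul_one, Real.norm_eq_abs, ← mul_sub, abs_mul, Nat.abs_cast]
  have h1 : (1 : ℝ) ≤ |(j : ℝ) - k| := by
    have : (1 : ℤ) ≤ |(j : ℤ) - k| := Int.one_le_abs (by omega)
    exact_mod_cast this
  calc (m : ℝ) = m * 1 := by ring
    _ ≤ m * |(j : ℝ) - k| := by gcongr

lemma y_ball {e : E} (he : ‖e‖ = 1) {m : ℕ} {R : ℝ} (hm : 2 * R ≤ m) {j k : ℕ} {x : E}
    (h1 : ‖x - y e m j‖ < R) (h2 : ‖x - y e m k‖ < R) : j = k := by
  by_contra hc
  have h3 := y_dist he m hc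
  have h4 : ‖y e m j - y e m k‖ ≤ ‖x - y e m k‖ + ‖x - y e m j‖ := by
    have : y e m j - y e m k = (x - y e m k) - (x - y e m j) := by abel
    rw [this]
    exact norm_sub_le _ _
  linarith

lemma sup_upper {p : ℝ} (hp : 1 ≤ p) {e : E} (he : ‖e‖ = 1) (n : ℕ) {g : ℕ → E → ℂ}
    (hg : ∀ k, MemLp (g k) (ENNReal.ofReal p) volume) (hgm : ∀ k, Measurable (g k))
    {ε : ℝ≥0∞} (hε : 0 < ε) :
    ∀ᶠ m : ℕ in atTop, eLpNorm (fun x => ∑ k ∈ Finset.range n, g k (x - y e m k))
      (ENNReal.ofReal p) volume ≤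
        (∑ k ∈ Finset.range n, eLpNorm (g k) (ENNReal.ofReal p) volume ^ p) ^ (1 / p) + ε := by
  have hp0 : 0 < p := by linarith
  have hq1 : 1 ≤ ENNReal.ofReal p := by
    rw [← ENNReal.ofReal_one]
    exact ENNReal.ofReal_le_ofReal hp
  have hδ : 0 < ε / (n + 1) := by
    apply ENNReal.div_pos hε.ne'
    exact ENNReal.add_ne_top.2 ⟨ENNReal.natCast_ne_top n, ENNReal.one_ne_top⟩
  have h1 : ∀ᶠ R : ℕ in atTop, ∀ k ∈ Finset.range n,
      eLpNorm ((Metric.ball (0 : E) R)ᶜ.indicator (g k)) (ENNReal.ofReal p) volume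
        ≤ ε / (n + 1) := by
    rw [Filter.eventually_all_finset]
    intro k _
    exact trunc hp (hg k) hδ
  obtain ⟨R, hR⟩ := h1.exists
  filter_upwards [eventually_ge_atTop (2 * R)] with m hm
  have hm' : 2 * (R : ℝ) ≤ m := by exact_mod_cast hm
  set A : Set E := Metric.ball (0 : E) R with hA
  have hdec : (fun x => ∑ k ∈ Finset.range n, g k (x - y e m k))
      = (fun x => ∑ k ∈ Finset.range n, A.indicator (g k) (x - y e m k))
        + ∑ k ∈ Finset.range n, fun x => Aᶜ.indicator (g k) (x - y e m k) := by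
    ext x
    rw [Pi.add_apply, Finset.sum_apply, ← Finset.sum_add_distrib]
    apply Finset.sum_congr rfl
    intro k _
    exact (indicator_self_add_compl_apply A (g k) (x - y e m k)).symm
  have hmeas1 : ∀ k, Measurable fun x => A.indicator (g k) (x - y e m k) := fun k =>
    ((hgm k).indicator measurableSet_ball).comp (measurable_id.sub_const _)
  have hmeas2 : ∀ k, Measurable fun x => Aᶜ.indicator (g k) (x - y e m k) := fun k =>
    ((hgm k).indicator measurableSet_ball.compl).comp (measurable_id.sub_const _)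
  rw [hdec]
  refine (eLpNorm_add_le ?_ ?_ hq1).trans (add_le_add ?_ ?_)
  · exact (Finset.measurable_sum _ fun k _ => hmeas1 k).aestronglyMeasurable
  · rw [Finset.sum_fn]
    exact (Finset.measurable_sum _ fun k _ => hmeas2 k).aestronglyMeasurable
  · rw [← ENNReal.rpow_le_rpow_iff hp0, pw_eq hp, ← ENNReal.rpow_mul, one_div,
      inv_mul_cancel₀ hp0.ne', ENNReal.rpow_one]
    calc ∫⁻ x, ‖∑ k ∈ Finset.range n, A.indicator (g k) (x - y e m k)‖ₑ ^ p
        ≤ ∫⁻ x, ∑ k ∈ Finset.range n, ‖A.indicator (g k) (x - y e m k)‖ₑ ^ p := by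
          apply lintegral_mono
          intro x
          apply single_sum hp0
          intro i _ j _ hi hj
          have h2 : ∀ k, A.indicator (g k) (x - y e m k) ≠ 0 → ‖x - y e m k‖ < R := by
            intro k hk
            have := mem_of_indicator_ne_zero hk
            rwa [hA, mem_ball_zero_iff] at this
          exact y_ball he hm' (h2 i hi) (h2 j hj)
      _ = ∑ k ∈ Finset.range n, ∫⁻ x, ‖A.indicator (g k) (x - y e m k)‖ₑ ^ p :=
          lintegral_finsetSum _ fun k _ => (hmeas1 k).enorm.pow_const p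
      _ = ∑ k ∈ Finset.range n, ∫⁻ x, ‖A.indicator (g k) x‖ₑ ^ p := by
          apply Finset.sum_congr rfl
          intro k _
          exact lintegral_sub_right_eq_self (fun x => ‖A.indicator (g k) x‖ₑ ^ p) _
      _ ≤ ∑ k ∈ Finset.range n, eLpNorm (g k) (ENNReal.ofReal p) volume ^ p := by
          apply Finset.sum_le_sum
          intro k _
          rw [pw_eq hp]
          apply lintegral_mono
          intro x
          simp only
          gcongr
          rw [enorm_indicator_eq_indicator_enorm]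
          exact indicator_le_self _ _ _
  · refine (eLpNorm_sum_le (fun k _ => (hmeas2 k).aestronglyMeasurable) hq1).trans ?_
    have h3 : ∀ k ∈ Finset.range n, eLpNorm (fun x => Aᶜ.indicator (g k) (x - y e m k))
        (ENNReal.ofReal p) volume ≤ ε / (n + 1) := by
      intro k hk
      have h4 : eLpNorm (fun x => Aᶜ.indicator (g k) (x - y e m k)) (ENNReal.ofReal p) volume
          = eLpNorm (Aᶜ.indicator (g k)) (ENNReal.ofReal p) volume := by
        apply ENNReal.rpow_left_injective hp0.ne'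
        simp only
        rw [pw_eq hp, pw_eq hp]
        exact lintegral_sub_right_eq_self (fun x => ‖Aᶜ.indicator (g k) x‖ₑ ^ p) _
      rw [h4]
      exact hR k hk
    refine (Finset.sum_le_sum h3).trans ?_
    rw [Finset.sum_const, Finset.card_range, nsmul_eq_mul]
    calc (n : ℝ≥0∞) * (ε / (n + 1)) ≤ (n + 1) * (ε / (n + 1)) := by
          gcongr
          exact le_self_add
      _ ≤ ε := ENNReal.mul_div_le

/-- superposition of translates of data -/
noncomputable def sup (e : E) (n : ℕ) (u : ℕ → 𝓢(E, ℂ) × 𝓢(E, ℂ)) (m : ℕ) :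
    𝓢(E, ℂ) × 𝓢(E, ℂ) := ∑ k ∈ Finset.range n, T (y e m k) (u k)

lemma wv_sup (e : E) (n : ℕ) (u : ℕ → 𝓢(E, ℂ) × 𝓢(E, ℂ)) (m : ℕ) (t : ℝ) (x : E) :
    wv (sup e n u m) t x = ∑ k ∈ Finset.range n, wv (u k) t (x - y e m k) := by
  unfold sup
  rw [wv_sum]
  apply Finset.sum_congr rfl
  intro k _
  exact wv_T _ _ _ _

/-- the norm of data -/
noncomputable def sz (p s : ℝ) (u : 𝓢(E, ℂ) × 𝓢(E, ℂ)) : ℝ≥0∞ :=
  nm (ENNReal.ofReal p) s u.1 + nm (ENNReal.ofReal p) (s - 1) u.2

lemma sup_sz {p : ℝ} (hp : 1 ≤ p) {e : E} (he : ‖e‖ = 1) (s : ℝ) (n : ℕ)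
    (u : ℕ → 𝓢(E, ℂ) × 𝓢(E, ℂ)) {S : ℝ≥0∞}
    (hS : (∑ k ∈ Finset.range n, nm (ENNReal.ofReal p) s (u k).1 ^ p) ^ (1 / p) +
      (∑ k ∈ Finset.range n, nm (ENNReal.ofReal p) (s - 1) (u k).2 ^ p) ^ (1 / p) < S) :
    ∀ᶠ m : ℕ in atTop, sz p s (sup e n u m) ≤ S := by
  obtain ⟨r, hr, hrS⟩ := ENNReal.lt_iff_exists_add_pos_lt.1 hS
  have hε : (0 : ℝ≥0∞) < (r : ℝ≥0∞) / 2 := ENNReal.div_pos (by exact_mod_cast hr.ne') (by simp)
  have h1 := sup_upper hp he n (g := fun k => mu (bs s) (u k).1) (fun k => nm_memLp _ _ _)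
    (fun k => (mu_cont (bs_sym s) _).measurable) hε
  have h2 := sup_upper hp he n (g := fun k => mu (bs (s - 1)) (u k).2) (fun k => nm_memLp _ _ _)
    (fun k => (mu_cont (bs_sym (s - 1)) _).measurable) hε
  filter_upwards [h1, h2] with m h3 h4
  have e1 : mu (bs s) (sup e n u m).1
      = fun x => ∑ k ∈ Finset.range n, mu (bs s) (u k).1 (x - y e m k) := by
    ext x
    unfold sup
    rw [Prod.fst_sum, mu_sum _ (bs_sym s)]
    apply Finset.sum_congr rfl
    intro k _
    exact mu_tr _ _ _ _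
  have e2 : mu (bs (s - 1)) (sup e n u m).2
      = fun x => ∑ k ∈ Finset.range n, mu (bs (s - 1)) (u k).2 (x - y e m k) := by
    ext x
    unfold sup
    rw [Prod.snd_sum, mu_sum _ (bs_sym (s - 1))]
    apply Finset.sum_congr rfl
    intro k _
    exact mu_tr _ _ _ _
  unfold sz
  have h5 : nm (ENNReal.ofReal p) s (sup e n u m).1
      ≤ (∑ k ∈ Finset.range n, nm (ENNReal.ofReal p) s (u k).1 ^ p) ^ (1 / p) + r / 2 := by
    unfold nm
    rw [e1]
    exact h3
  have h6 : nm (ENNReal.ofReal p) (s - 1) (sup e n u m).2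
      ≤ (∑ k ∈ Finset.range n, nm (ENNReal.ofReal p) (s - 1) (u k).2 ^ p) ^ (1 / p) + r / 2 := by
    unfold nm
    rw [e2]
    exact h4
  refine (add_le_add h5 h6).trans ?_
  refine le_trans (le_of_eq ?_) hrS.le
  rw [add_add_add_comm, ENNReal.add_halves]

end Pool.Agent.Q93.LSP
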