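import Mathlib
import Pool.Agent.Q93.LSP.F
set_option autoImplicit false

/-! One good time for every datum gives the estimate averaged over time. -/

namespace Pool.Agent.Q93.LSP

open MeasureTheory Set Filter Topology ProbabilityTheory Module
open scoped ENNReal NNReal FourierTransform RealInnerProductSpace SchwartzMap

variable {E : Type*} [NormedAddCommGroup E] [InnerProductSpace ℝ E] [FiniteDimensional ℝ E]
  [MeasurableSpace E] [BorelSpace E]

lemma window {e : E} (he : ‖e‖ = 1) (n m : ℕ) {f : E → ℝ≥0∞} (hf : Measurable f) :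
    ∫⁻ x, ∑ k ∈ Finset.range n, (Metric.ball (0 : E) (m / 3)).indicator
      (fun z => f (z + y e m k)) x ≤ ∫⁻ x, f x := by
  set A : Set E := Metric.ball (0 : E) (m / 3) with hA
  have hmeas : ∀ k, Measurable (A.indicator fun z => f (z + y e m k)) := fun k =>
    (hf.comp (measurable_id.add_const _)).indicator measurableSet_ball
  rw [lintegral_finsetSum _ fun k _ => hmeas k]
  have h1 : ∀ k ∈ Finset.range n, ∫⁻ x, A.indicator (fun z => f (z + y e m k)) x
      = ∫⁻ x, A.indicator (fun z => f (z + y e m k)) (x - y e m k) := fun k _ =>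
    (lintegral_sub_right_eq_self (fun x => A.indicator (fun z => f (z + y e m k)) x) _).symm
  have hmeas2 : ∀ k, Measurable fun x => A.indicator (fun z => f (z + y e m k)) (x - y e m k) :=
    fun k => (hmeas k).comp (measurable_id.sub_const _)
  rw [Finset.sum_congr rfl h1, ← lintegral_finsetSum _ fun k _ => hmeas2 k]
  apply lintegral_mono
  intro x
  simp only
  have h2 : ∀ k, A.indicator (fun z => f (z + y e m k)) (x - y e m k) ≤ f x := by
    intro k
    by_cases hk : x - y e m k ∈ A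
    · rw [indicator_of_mem hk, sub_add_cancel]
    · rw [indicator_of_notMem hk]
      exact zero_le
  by_cases h3 : ∃ k ∈ Finset.range n, x - y e m k ∈ A
  · obtain ⟨k, hk, hkA⟩ := h3
    rw [Finset.sum_eq_single_of_mem k hk]
    · exact h2 k
    · intro j _ hjk
      apply indicator_of_notMem
      intro hj
      rw [hA, mem_ball_zero_iff] at hj hkA
      exact hjk (y_ball he (by linarith) hj hkA)
  · push Not at h3
    rw [Finset.sum_eq_zero fun k hk => indicator_of_notMem (h3 k hk) _]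
    exact zero_le

lemma far {e : E} (he : ‖e‖ = 1) (x : E) {j k : ℕ} (h : j ≠ k) {φ : ℕ → ℕ}
    (hφ : StrictMono φ) :
    Tendsto (fun i => x + y e (φ i) k - y e (φ i) j) atTop (cocompact E) := by
  rw [← Metric.cobounded_eq_cocompact, ← tendsto_norm_atTop_iff_cobounded]
  have h1 : Tendsto (fun i => (φ i : ℝ) - ‖x‖) atTop atTop := by
    apply tendsto_atTop_add_const_right
    exact tendsto_natCast_atTop_atTop.comp hφ.tendsto_atTop
  apply tendsto_atTop_mono _ h1
  intro i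
  have h2 := y_dist he (φ i) h
  have h3 : ‖y e (φ i) j - y e (φ i) k‖ ≤ ‖x + y e (φ i) k - y e (φ i) j‖ + ‖x‖ := by
    have : y e (φ i) j - y e (φ i) k = -(x + y e (φ i) k - y e (φ i) j) + x := by abel
    rw [this]
    refine (norm_add_le _ _).trans ?_
    rw [norm_neg]
  linarith

/-- Fatou's lemma for superpositions of translates moving apart -/
lemma fatou_sup {p : ℝ} {e : E} (he : ‖e‖ = 1) (n : ℕ) (u : ℕ → 𝓢(E, ℂ) × 𝓢(E, ℂ))
    {τ : ℕ → ℝ} {t₀ : ℝ} (hlim : Tendsto τ atTop (𝓝 t₀)) {φ : ℕ → ℕ} (hφ : StrictMono φ) :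
    ∑ k ∈ Finset.range n, en p (u k) t₀
      ≤ liminf (fun i => en p (sup e n u (φ i)) (τ i)) atTop := by
  have hcont : ∀ (v : 𝓢(E, ℂ) × 𝓢(E, ℂ)) (x : E),
      Tendsto (fun i => wv v (τ i) x) atTop (𝓝 (wv v t₀ x)) := by
    intro v x
    have h3 : Continuous fun t : ℝ => (t, x) := continuous_id.prodMk continuous_const
    have h4 := Continuous.comp (g := fun z : ℝ × E => wv v z.1 z.2) (wv_cont v) h3
    exact (h4.tendsto t₀).comp hlim
  set Φ : ℕ → E → ℝ≥0∞ := fun i x => ∑ k ∈ Finset.range n,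
    (Metric.ball (0 : E) (φ i / 3)).indicator
      (fun z => ‖wv (sup e n u (φ i)) (τ i) (z + y e (φ i) k)‖ₑ ^ p) x with hΦ
  have hfm : ∀ i, Measurable fun x => ‖wv (sup e n u (φ i)) (τ i) x‖ₑ ^ p := fun i =>
    (wv_cont_right _ _).measurable.enorm.pow_const p
  have hΦm : ∀ i, Measurable (Φ i) := by
    intro i
    rw [hΦ]
    exact Finset.measurable_sum _ fun k _ =>
      ((hfm i).comp (measurable_id.add_const _)).indicator measurableSet_ball
  have hΦi : ∀ i, ∫⁻ x, Φ i x ≤ en p (sup e n u (φ i)) (τ i) := fun i =>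
    window he n (φ i) (f := fun x => ‖wv (sup e n u (φ i)) (τ i) x‖ₑ ^ p) (hfm i)
  have hpt : ∀ x, ∑ k ∈ Finset.range n, ‖wv (u k) t₀ x‖ₑ ^ p
      = liminf (fun i => Φ i x) atTop := by
    intro x
    refine (Tendsto.liminf_eq ?_).symm
    have h1 : Tendsto (fun i => ∑ k ∈ Finset.range n,
        ‖wv (sup e n u (φ i)) (τ i) (x + y e (φ i) k)‖ₑ ^ p) atTop
          (𝓝 (∑ k ∈ Finset.range n, ‖wv (u k) t₀ x‖ₑ ^ p)) := by
      apply tendsto_finsetSum
      intro k hk
      refine ((ENNReal.continuous_rpow_const (y := p)).tendsto _).comp (Tendsto.enorm ?_)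
      have h2 : Tendsto (fun i => ∑ j ∈ Finset.range n,
          wv (u j) (τ i) (x + y e (φ i) k - y e (φ i) j)) atTop
            (𝓝 (∑ j ∈ Finset.range n, if j = k then wv (u k) t₀ x else 0)) := by
        apply tendsto_finsetSum
        intro j _
        by_cases hjk : j = k
        · rw [if_pos hjk, hjk]
          simp only [add_sub_cancel_right]
          exact hcont _ _
        · rw [if_neg hjk]
          exact wv_decay (u j) hlim (far he x hjk hφ)
      rw [Finset.sum_ite_eq' (Finset.range n) k, if_pos hk] at h2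
      simp_rw [wv_sup]
      exact h2
    refine h1.congr' ?_
    obtain ⟨N, hN⟩ := exists_nat_gt (3 * ‖x‖)
    filter_upwards [hφ.tendsto_atTop.eventually_ge_atTop N] with i hi
    rw [hΦ]
    apply Finset.sum_congr rfl
    intro k _
    rw [indicator_of_mem]
    rw [mem_ball_zero_iff]
    have : (N : ℝ) ≤ φ i := by exact_mod_cast hi
    linarith
  calc ∑ k ∈ Finset.range n, en p (u k) t₀
      = ∫⁻ x, ∑ k ∈ Finset.range n, ‖wv (u k) t₀ x‖ₑ ^ p := by
        rw [lintegral_finsetSum _ fun k _ => (wv_cont_right _ _).measurable.enorm.pow_const p]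
        rfl
    _ = ∫⁻ x, liminf (fun i => Φ i x) atTop := by simp_rw [hpt]
    _ ≤ liminf (fun i => ∫⁻ x, Φ i x) atTop := lintegral_liminf_le fun i => hΦm _
    _ ≤ liminf (fun i => en p (sup e n u (φ i)) (τ i)) atTop :=
        liminf_le_liminf (Eventually.of_forall hΦi)

lemma main_sup {p : ℝ} (hp : 1 ≤ p) {s : ℝ} {e : E} (he : ‖e‖ = 1) {a b : ℝ} {C : ℝ≥0}
    (hgood : ∀ v : 𝓢(E, ℂ) × 𝓢(E, ℂ), ∃ t ∈ Icc a b,
      eLpNorm (wv v t) (ENNReal.ofReal p) volume ≤ C * sz p s v)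
    (n : ℕ) (u : ℕ → 𝓢(E, ℂ) × 𝓢(E, ℂ)) {S : ℝ≥0∞}
    (hS : (∑ k ∈ Finset.range n, nm (ENNReal.ofReal p) s (u k).1 ^ p) ^ (1 / p) +
      (∑ k ∈ Finset.range n, nm (ENNReal.ofReal p) (s - 1) (u k).2 ^ p) ^ (1 / p) < S) :
    ∃ t ∈ Icc a b, ∑ k ∈ Finset.range n, en p (u k) t ≤ (C * S) ^ p := by
  have hp0 : 0 < p := by linarith
  choose t ht hle using fun m => hgood (sup e n u m)
  obtain ⟨t₀, ht₀, φ, hφ, hlim⟩ := isCompact_Icc.tendsto_subseq ht
  refine ⟨t₀, ht₀, (fatou_sup he n u hlim hφ).trans ?_⟩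
  apply liminf_le_of_frequently_le'
  apply Eventually.frequently
  filter_upwards [hφ.tendsto_atTop.eventually (sup_sz hp he s n u hS)] with i hi
  rw [en_eq hp]
  gcongr
  refine (hle _).trans ?_
  gcongr

/-- adding a far translate adds the energies, on compact sets of times -/
lemma add_far {p : ℝ} {e : E} (he : ‖e‖ = 1) (v F : 𝓢(E, ℂ) × 𝓢(E, ℂ)) {K : Set ℝ}
    (hK : IsCompact K) {γ : ℝ≥0∞} (h : ∀ t ∈ K, γ < en p v t + en p F t) :
    ∀ᶠ m : ℕ in atTop, ∀ t ∈ K, γ < en p (v + T ((m : ℝ) • e) F) t := by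
  by_contra hc
  rw [Filter.not_eventually] at hc
  obtain ⟨φ, hφ, hφ2⟩ := Filter.extraction_of_frequently_atTop hc
  push Not at hφ2
  choose t ht hle using hφ2
  obtain ⟨t₀, ht₀, ψ, hψ, hlim⟩ := hK.tendsto_subseq ht
  set u : ℕ → 𝓢(E, ℂ) × 𝓢(E, ℂ) := fun k => if k = 0 then v else F with hu
  have h1 := fatou_sup (p := p) he 2 u hlim (hφ.comp hψ)
  have h2 : ∀ m, sup e 2 u m = v + T ((m : ℝ) • e) F := by
    intro m
    unfold sup
    rw [Finset.sum_range_succ, Finset.sum_range_one, hu]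
    simp only [if_true, one_ne_zero, if_false]
    congr 1
    · have : y e m 0 = 0 := by simp [y]
      rw [this]
      unfold T tr
      rw [SchwartzMap.compSubConstCLM_zero]
      rfl
    · have : y e m 1 = (m : ℝ) • e := by simp [y]
      rw [this]
  rw [Finset.sum_range_succ, Finset.sum_range_one] at h1
  have h3 : en p v t₀ + en p F t₀ ≤ γ := by
    refine h1.trans ?_
    apply liminf_le_of_frequently_le'
    apply Frequently.of_forall
    intro i
    rw [h2]
    exact hle (ψ i)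
  exact absurd (h t₀ ht₀) (not_lt.2 h3)

/-- step functions -/
lemma step_le {n : ℕ} (hn : 0 < n) (H : ℝ → ℝ≥0∞) :
    ∫⁻ θ in Ico (0 : ℝ) 1, H ((⌊n * θ⌋₊ : ℝ) / n)
      ≤ (n : ℝ≥0∞)⁻¹ * ∑ k ∈ Finset.range n, H ((k : ℝ) / n) := by
  have hn0 : (0 : ℝ) < n := by exact_mod_cast hn
  have hsub : Ico (0 : ℝ) 1 ⊆ ⋃ k : Fin n, Ico ((k : ℝ) / n) (((k : ℝ) + 1) / n) := by
    intro θ hθ
    have h0 : 0 ≤ (n : ℝ) * θ := mul_nonneg hn0.le hθ.1
    have h1 : ⌊(n : ℝ) * θ⌋₊ < n := by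
      rw [Nat.floor_lt h0]
      calc (n : ℝ) * θ < n * 1 := by
            apply mul_lt_mul_of_pos_left hθ.2 hn0
        _ = n := mul_one _
    rw [mem_iUnion]
    refine ⟨⟨_, h1⟩, ?_, ?_⟩
    · rw [div_le_iff₀ hn0]
      have := Nat.floor_le h0
      linarith
    · rw [lt_div_iff₀ hn0]
      have := Nat.lt_floor_add_one ((n : ℝ) * θ)
      simp only
      linarith
  refine (lintegral_mono_set hsub).trans ((lintegral_iUnion_le _ _).trans ?_)
  rw [tsum_fintype, Finset.sum_range, Finset.mul_sum]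
  apply Finset.sum_le_sum
  intro k _
  have h2 : ∀ θ ∈ Ico ((k : ℝ) / n) (((k : ℝ) + 1) / n),
      H ((⌊(n : ℝ) * θ⌋₊ : ℝ) / n) = H ((k : ℝ) / n) := by
    intro θ hθ
    have h3 : ⌊(n : ℝ) * θ⌋₊ = (k : ℕ) := by
      obtain ⟨h4, h5⟩ := hθ
      rw [div_le_iff₀ hn0] at h4
      rw [lt_div_iff₀ hn0] at h5
      have h6 : (0 : ℝ) ≤ (k : ℕ) := Nat.cast_nonneg _
      rw [Nat.floor_eq_iff (by linarith)]
      constructor <;> linarith
    rw [h3]
  rw [setLIntegral_congr_fun measurableSet_Ico h2, setLIntegral_const, Real.volume_Ico]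
  have h4 : ((k : ℝ) + 1) / n - (k : ℝ) / n = (n : ℝ)⁻¹ := by
    field_simp
    ring
  rw [h4, ENNReal.ofReal_inv_of_pos hn0, ENNReal.ofReal_natCast, mul_comm]

/-- The substitution `θ ↦ t/v`. -/
lemma subst_le {a b t : ℝ} (ha : 0 < a) (hab : a ≤ b) (ht : t ∈ Icc a b) (F : ℝ → ℝ≥0∞) :
    ENNReal.ofReal (a / (4 * b)) * ∫⁻ v in Icc (1 : ℝ) 2, F v
      ≤ ∫⁻ θ in Ico (0 : ℝ) 1, F (t / (a / 2 + (b - a / 2) * θ)) := by
  have hb : 0 < b := ha.trans_le hab
  have ht0 : 0 < t := ha.trans_le ht.1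
  have hw : 0 < b - a / 2 := by linarith
  set h : ℝ → ℝ := fun v => (t / v - a / 2) / (b - a / 2) with hh
  set h' : ℝ → ℝ := fun v => -(t / v ^ 2) / (b - a / 2) with hh'
  have hd : ∀ v ∈ Ioc (1 : ℝ) 2, HasDerivWithinAt h (h' v) (Ioc 1 2) v := by
    intro v hv
    have hv0 : v ≠ 0 := by
      have := hv.1
      intro hc
      rw [hc] at this
      linarith
    apply HasDerivAt.hasDerivWithinAt
    have h1 : HasDerivAt (fun v : ℝ => t / v) (-(t / v ^ 2)) v := by
      have := (hasDerivAt_inv hv0).const_mul t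
      refine (this.congr_deriv ?_).congr_of_eventuallyEq ?_
      · field_simp
      · exact Eventually.of_forall fun x => div_eq_mul_inv _ _
    exact (h1.sub_const _).div_const _
  have hinj : InjOn h (Ioc 1 2) := by
    intro v hv w hw' hvw
    have hv0 : 0 < v := by have := hv.1; linarith
    have hw0 : 0 < w := by have := hw'.1; linarith
    rw [hh] at hvw
    simp only at hvw
    rw [div_left_inj' hw.ne'] at hvw
    have : t / v = t / w := by linarith
    rw [div_eq_div_iff hv0.ne' hw0.ne'] at this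
    have := mul_left_cancel₀ ht0.ne' this
    exact this.symm
  have key := lintegral_image_eq_lintegral_abs_deriv_mul measurableSet_Ioc hd hinj
    (fun θ => F (t / (a / 2 + (b - a / 2) * θ)))
  have himg : h '' Ioc 1 2 ⊆ Ico 0 1 := by
    rintro _ ⟨v, hv, rfl⟩
    have hv0 : 0 < v := by have := hv.1; linarith
    have h2 : a / 2 ≤ t / v := by
      rw [le_div_iff₀ hv0]
      calc a / 2 * v ≤ a / 2 * 2 := by
            have := hv.2
            gcongr
        _ = a := by ring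
        _ ≤ t := ht.1
    have h3 : t / v < b := by
      rw [div_lt_iff₀ hv0]
      have := hv.1
      nlinarith [ht.2]
    rw [hh]
    constructor
    · apply div_nonneg _ hw.le
      linarith
    · rw [div_lt_one hw]
      linarith
  have hback : ∀ v ∈ Ioc (1 : ℝ) 2, ENNReal.ofReal (a / (4 * b)) * F v
      ≤ ENNReal.ofReal |h' v| * F (t / (a / 2 + (b - a / 2) * h v)) := by
    intro v hv
    have hv0 : 0 < v := by have := hv.1; linarith
    have h2 : t / (a / 2 + (b - a / 2) * h v) = v := by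
      rw [hh]
      simp only
      rw [mul_div_cancel₀ _ hw.ne']
      have : a / 2 + (t / v - a / 2) = t / v := by ring
      rw [this]
      field_simp
    rw [h2]
    gcongr
    rw [hh', abs_div, abs_neg, abs_of_pos (by positivity : 0 < t / v ^ 2), abs_of_pos hw,
      div_div, div_le_div_iff₀ (by positivity) (by positivity)]
    have h4 : v ^ 2 ≤ 4 := by
      have := hv.2
      nlinarith
    calc a * (v ^ 2 * (b - a / 2)) ≤ t * (4 * b) := by
          apply mul_le_mul ht.1 _ (by positivity) ht0.le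
          apply mul_le_mul h4 _ hw.le (by norm_num)
          linarith
      _ = t * (4 * b) := rfl
  calc ENNReal.ofReal (a / (4 * b)) * ∫⁻ v in Icc (1 : ℝ) 2, F v
      = ENNReal.ofReal (a / (4 * b)) * ∫⁻ v in Ioc (1 : ℝ) 2, F v := by
        rw [Measure.restrict_congr_set Ioc_ae_eq_Icc.symm]
    _ = ∫⁻ v in Ioc (1 : ℝ) 2, ENNReal.ofReal (a / (4 * b)) * F v :=
        (lintegral_const_mul' _ _ ENNReal.ofReal_ne_top).symm
    _ ≤ ∫⁻ v in Ioc (1 : ℝ) 2, ENNReal.ofReal |h' v| * F (t / (a / 2 + (b - a / 2) * h v)) :=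
        setLIntegral_mono' measurableSet_Ioc hback
    _ = ∫⁻ θ in h '' Ioc 1 2, F (t / (a / 2 + (b - a / 2) * θ)) := key.symm
    _ ≤ _ := lintegral_mono_set himg

/-- dilations of data by factors in `[a/2, b]` -/
lemma D_bound {p : ℝ} (hp : 1 ≤ p) (s : ℝ) {a : ℝ} (b : ℝ) (ha : 0 < a) :
    ∃ L : ℝ≥0, ∀ ρ ∈ Icc (a / 2) b, ∀ u : 𝓢(E, ℂ) × 𝓢(E, ℂ),
      nm (ENNReal.ofReal p) s (D ρ u).1 ≤ L * nm (ENNReal.ofReal p) s u.1 ∧
      nm (ENNReal.ofReal p) (s - 1) (D ρ u).2 ≤ L * nm (ENNReal.ofReal p) (s - 1) u.2 := by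
  set B : ℝ := max (max b (2 / a)) 1 with hB
  have hB1 : 1 ≤ B := le_max_right _ _
  have hBb : b ≤ B := (le_max_left _ _).trans (le_max_left _ _)
  have hBa : 2 / a ≤ B := (le_max_right _ _).trans (le_max_left _ _)
  have hB0 : 0 < B := by linarith
  have hBi : B⁻¹ ≤ a / 2 := by
    rw [inv_le_comm₀ hB0 (by positivity), inv_div]
    exact hBa
  obtain ⟨K, hK⟩ := nm_dil (E := E) hp s B hB1
  obtain ⟨K', hK'⟩ := nm_dil (E := E) hp (s - 1) B hB1
  refine ⟨max K (B.toNNReal * K'), ?_⟩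
  intro ρ hρ u
  have h1 : B⁻¹ ≤ ρ := hBi.trans hρ.1
  have h2 : ρ ≤ B := hρ.2.trans hBb
  have hρ0 : 0 < ρ := (inv_pos.2 hB0).trans_le h1
  constructor
  · refine (hK ρ h1 h2 u.1).trans ?_
    gcongr
    exact le_max_left _ _
  · unfold D
    simp only
    rw [nm_smul]
    have h3 : ‖((ρ⁻¹ : ℝ) : ℂ)‖ₑ ≤ (B.toNNReal : ℝ≥0∞) := by
      rw [← ofReal_norm, Complex.norm_real, Real.norm_eq_abs, abs_of_pos (inv_pos.2 hρ0)]
      apply ENNReal.ofReal_le_ofReal
      rw [inv_le_comm₀ hρ0 hB0]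
      exact h1
    calc ‖((ρ⁻¹ : ℝ) : ℂ)‖ₑ * nm (ENNReal.ofReal p) (s - 1) (dil ρ u.2)
        ≤ (B.toNNReal : ℝ≥0∞) * (K' * nm (ENNReal.ofReal p) (s - 1) u.2) :=
          mul_le_mul' h3 (hK' ρ h1 h2 u.2)
      _ = ((B.toNNReal * K' : ℝ≥0) : ℝ≥0∞) * nm (ENNReal.ofReal p) (s - 1) u.2 := by
          rw [ENNReal.coe_mul, mul_assoc]
      _ ≤ _ := by
          gcongr
          exact le_max_right _ _

lemma sz_lt_top (p s : ℝ) (u : 𝓢(E, ℂ) × 𝓢(E, ℂ)) : sz p s u < ⊤ :=
  ENNReal.add_lt_top.2 ⟨nm_lt_top _ _ _, nm_lt_top _ _ _⟩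

lemma sz_eq_zero {p : ℝ} (hp : 1 ≤ p) {s : ℝ} {u : 𝓢(E, ℂ) × 𝓢(E, ℂ)} (h : sz p s u = 0) :
    u = 0 := by
  have hq : ENNReal.ofReal p ≠ 0 := by
    have : 0 < p := by linarith
    simpa using this
  unfold sz at h
  rw [add_eq_zero] at h
  exact Prod.ext (nm_eq_zero hq h.1) (nm_eq_zero hq h.2)

lemma en_zero {p : ℝ} (hp : 1 ≤ p) (t : ℝ) : en p (0 : 𝓢(E, ℂ) × 𝓢(E, ℂ)) t = 0 := by
  have hp0 : 0 < p := by linarith
  unfold en
  simp_rw [wv_zero, enorm_zero, ENNReal.zero_rpow_of_pos hp0]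
  exact lintegral_zero

lemma geo {p : ℝ} (hp : 1 ≤ p) (n : ℕ) (L : ℝ≥0) (a : ℕ → ℝ≥0∞) (A : ℝ≥0∞)
    (h : ∀ k, a k ≤ L * A) :
    (∑ k ∈ Finset.range n, a k ^ p) ^ (1 / p) ≤ (n : ℝ≥0∞) ^ (1 / p) * (L * A) := by
  have hp0 : 0 < p := by linarith
  calc (∑ k ∈ Finset.range n, a k ^ p) ^ (1 / p)
      ≤ (∑ _k ∈ Finset.range n, (L * A) ^ p) ^ (1 / p) := by
        gcongr with k _
        exact h k
    _ = (n : ℝ≥0∞) ^ (1 / p) * (L * A) := by
        rw [Finset.sum_const, Finset.card_range, nsmul_eq_mul,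
          ENNReal.mul_rpow_of_nonneg _ _ (by positivity), ← ENNReal.rpow_mul, one_div,
          mul_inv_cancel₀ hp0.ne', ENNReal.rpow_one]

end Pool.Agent.Q93.LSP
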