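import Mathlib
import Pool.Agent.Q93.LSP.G
set_option autoImplicit false

/-! The averaged estimate, its dilates, sequences of data. -/

namespace Pool.Agent.Q93.LSP

open MeasureTheory Set Filter Topology ProbabilityTheory Module
open scoped ENNReal NNReal FourierTransform RealInnerProductSpace SchwartzMap

variable {E : Type*} [NormedAddCommGroup E] [InnerProductSpace ℝ E] [FiniteDimensional ℝ E]
  [MeasurableSpace E] [BorelSpace E]

theorem avg {p : ℝ} (hp : 1 ≤ p) (s : ℝ) {e : E} (he : ‖e‖ = 1) {a b : ℝ} (ha : 0 < a)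
    (hab : a ≤ b) : ∃ A : ℝ≥0, ∀ C : ℝ≥0,
    (∀ v : 𝓢(E, ℂ) × 𝓢(E, ℂ), ∃ t ∈ Icc a b,
      eLpNorm (wv v t) (ENNReal.ofReal p) volume ≤ C * sz p s v) →
    ∀ u : 𝓢(E, ℂ) × 𝓢(E, ℂ),
      ∫⁻ t in Icc (1 : ℝ) 2, en p u t ≤ ((A * C : ℝ≥0) * sz p s u) ^ p := by
  have hp0 : 0 < p := by linarith
  have hb : 0 < b := ha.trans_le hab
  obtain ⟨L, hL⟩ := D_bound (E := E) hp s b ha
  set c₀ : ℝ≥0∞ := ENNReal.ofReal ((a / 2) ^ finrank ℝ E) with hc₀
  set c₁ : ℝ≥0∞ := ENNReal.ofReal (a / (4 * b)) with hc₁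
  have hc₀0 : c₀ ≠ 0 := by
    rw [hc₀]
    simp only [ne_eq, ENNReal.ofReal_eq_zero, not_le]
    positivity
  have hc₀t : c₀ ≠ ⊤ := ENNReal.ofReal_ne_top
  have hc₁0 : c₁ ≠ 0 := by
    rw [hc₁]
    simp only [ne_eq, ENNReal.ofReal_eq_zero, not_le]
    positivity
  have hc₁t : c₁ ≠ ⊤ := ENNReal.ofReal_ne_top
  have key : ∀ C : ℝ≥0, (∀ v : 𝓢(E, ℂ) × 𝓢(E, ℂ), ∃ t ∈ Icc a b,
      eLpNorm (wv v t) (ENNReal.ofReal p) volume ≤ C * sz p s v) →
      ∀ u : 𝓢(E, ℂ) × 𝓢(E, ℂ), c₁ * ∫⁻ t in Icc (1 : ℝ) 2, en p u t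
      ≤ (C * ((L + 1) * sz p s u)) ^ p / c₀ := by
    intro C hgood u
    by_cases hz : sz p s u = 0
    · rw [sz_eq_zero hp hz]
      simp_rw [en_zero hp]
      simp
    set r : ℝ → ℝ := fun θ => a / 2 + (b - a / 2) * θ with hr
    have hrm : ∀ θ ∈ Ico (0 : ℝ) 1, r θ ∈ Icc (a / 2) b := by
      intro θ hθ
      have h1 : 0 < b - a / 2 := by linarith
      rw [hr]
      constructor
      · have := mul_nonneg h1.le hθ.1
        linarith
      · have := mul_le_mul_of_nonneg_left hθ.2.le h1.le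
        linarith
    set M : ℝ≥0∞ := (C * ((L + 1) * sz p s u)) ^ p with hM
    have step : ∀ n : ℕ, ∃ t ∈ Icc a b,
        ∑ k ∈ Finset.range (n + 1), en p (D (r ((k : ℝ) / (n + 1 : ℕ))) u) t ≤ (n + 1 : ℕ) * M := by
      intro n
      have hk : ∀ k ∈ Finset.range (n + 1), (k : ℝ) / (n + 1 : ℕ) ∈ Ico (0 : ℝ) 1 := by
        intro k hk
        have h1 : (0 : ℝ) < (n + 1 : ℕ) := by positivity
        constructor
        · positivity
        · rw [div_lt_one h1]
          exact_mod_cast Finset.mem_range.1 hk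
      set a₁ : ℕ → ℝ≥0∞ := fun k => if k ∈ Finset.range (n + 1) then
        nm (ENNReal.ofReal p) s (D (r ((k : ℝ) / (n + 1 : ℕ))) u).1 else 0 with ha₁
      set a₂ : ℕ → ℝ≥0∞ := fun k => if k ∈ Finset.range (n + 1) then
        nm (ENNReal.ofReal p) (s - 1) (D (r ((k : ℝ) / (n + 1 : ℕ))) u).2 else 0 with ha₂
      have g1 := geo hp (n + 1) L a₁ (nm (ENNReal.ofReal p) s u.1) (by
        intro k
        rw [ha₁]
        simp only
        split_ifs with h
        · exact (hL _ (hrm _ (hk k h)) u).1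
        · exact zero_le)
      have g2 := geo hp (n + 1) L a₂ (nm (ENNReal.ofReal p) (s - 1) u.2) (by
        intro k
        rw [ha₂]
        simp only
        split_ifs with h
        · exact (hL _ (hrm _ (hk k h)) u).2
        · exact zero_le)
      have e1 : ∑ k ∈ Finset.range (n + 1),
          nm (ENNReal.ofReal p) s (D (r ((k : ℝ) / (n + 1 : ℕ))) u).1 ^ p
            = ∑ k ∈ Finset.range (n + 1), a₁ k ^ p := by
        apply Finset.sum_congr rfl
        intro k hk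
        rw [ha₁]
        simp only
        rw [if_pos hk]
      have e2 : ∑ k ∈ Finset.range (n + 1),
          nm (ENNReal.ofReal p) (s - 1) (D (r ((k : ℝ) / (n + 1 : ℕ))) u).2 ^ p
            = ∑ k ∈ Finset.range (n + 1), a₂ k ^ p := by
        apply Finset.sum_congr rfl
        intro k hk
        rw [ha₂]
        simp only
        rw [if_pos hk]
      set X : ℝ≥0∞ := ((n + 1 : ℕ) : ℝ≥0∞) ^ (1 / p) with hX
      have hX0 : X ≠ 0 := by
        rw [hX]
        apply (ENNReal.rpow_pos _ (ENNReal.natCast_ne_top _)).ne'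
        exact_mod_cast Nat.succ_pos n
      have hXt : X ≠ ⊤ := ENNReal.rpow_ne_top_of_nonneg (by positivity) (ENNReal.natCast_ne_top _)
      have hsz := (sz_lt_top p s u).ne
      have hS : (∑ k ∈ Finset.range (n + 1),
          nm (ENNReal.ofReal p) s (D (r ((k : ℝ) / (n + 1 : ℕ))) u).1 ^ p) ^ (1 / p) +
          (∑ k ∈ Finset.range (n + 1),
          nm (ENNReal.ofReal p) (s - 1) (D (r ((k : ℝ) / (n + 1 : ℕ))) u).2 ^ p) ^ (1 / p)
            < X * ((L + 1) * sz p s u) := by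
        rw [e1, e2]
        calc _ ≤ X * (L * nm (ENNReal.ofReal p) s u.1)
              + X * (L * nm (ENNReal.ofReal p) (s - 1) u.2) := add_le_add g1 g2
          _ = X * (L * sz p s u) := by
              unfold sz
              ring
          _ < X * (L * sz p s u) + X * sz p s u := by
              apply ENNReal.lt_add_right
              · exact ENNReal.mul_ne_top hXt (ENNReal.mul_ne_top ENNReal.coe_ne_top hsz)
              · exact mul_ne_zero hX0 hz
          _ = X * ((L + 1) * sz p s u) := by ring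
      obtain ⟨t, ht, hle⟩ := main_sup hp he hgood (n + 1)
        (fun k => D (r ((k : ℝ) / (n + 1 : ℕ))) u) hS
      refine ⟨t, ht, hle.trans (le_of_eq ?_)⟩
      rw [hM]
      have : (C : ℝ≥0∞) * (X * ((L + 1) * sz p s u)) = X * (C * ((L + 1) * sz p s u)) := by ring
      rw [this, ENNReal.mul_rpow_of_nonneg _ _ hp0.le, hX, ← ENNReal.rpow_mul, one_div,
        inv_mul_cancel₀ hp0.ne', ENNReal.rpow_one]
    choose t ht hle using step
    obtain ⟨t₀, ht₀, φ, hφ, hlim⟩ := isCompact_Icc.tendsto_subseq ht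
    set H : ℕ → ℝ → ℝ≥0∞ := fun n v => en p u (t n / r v) with hH
    set st : ℕ → ℝ → ℝ := fun n θ => (⌊((n + 1 : ℕ) : ℝ) * θ⌋₊ : ℝ) / (n + 1 : ℕ) with hst
    have hHm : ∀ n, Measurable fun θ => H n (st n θ) := by
      intro n
      rw [hH, hst, hr]
      apply (en_meas u).comp
      apply Measurable.const_div
      apply Measurable.const_add
      apply Measurable.const_mul
      apply Measurable.div_const
      exact (measurable_from_top (f := fun k : ℕ => (k : ℝ))).comp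
        (Nat.measurable_floor.comp (measurable_id.const_mul _))
    have hHi : ∀ n, ∫⁻ θ in Ico (0 : ℝ) 1, H n (st n θ) ≤ M / c₀ := by
      intro n
      rw [ENNReal.le_div_iff_mul_le (Or.inl hc₀0) (Or.inl hc₀t)]
      have h1 := step_le (Nat.succ_pos n) (H n)
      have h2 : ∀ k ∈ Finset.range (n + 1), c₀ * H n ((k : ℝ) / (n + 1 : ℕ))
          ≤ en p (D (r ((k : ℝ) / (n + 1 : ℕ))) u) (t n) := by
        intro k hk
        have h3 : (k : ℝ) / (n + 1 : ℕ) ∈ Ico (0 : ℝ) 1 := by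
          have h1 : (0 : ℝ) < (n + 1 : ℕ) := by positivity
          constructor
          · positivity
          · rw [div_lt_one h1]
            exact_mod_cast Finset.mem_range.1 hk
        have h4 := hrm _ h3
        have h5 : 0 < r ((k : ℝ) / (n + 1 : ℕ)) := by linarith [h4.1]
        rw [en_D h5]
        apply mul_le_mul_left
        apply ENNReal.ofReal_le_ofReal
        exact pow_le_pow_left₀ (by positivity) h4.1 _
      have h0 : ((n + 1 : ℕ) : ℝ≥0∞) ≠ 0 := by exact_mod_cast Nat.succ_ne_zero n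
      calc (∫⁻ θ in Ico (0 : ℝ) 1, H n (st n θ)) * c₀
          ≤ (((n + 1 : ℕ) : ℝ≥0∞)⁻¹ * ∑ k ∈ Finset.range (n + 1), H n ((k : ℝ) / (n + 1 : ℕ))) * c₀ :=
            mul_le_mul_left h1 _
        _ = ((n + 1 : ℕ) : ℝ≥0∞)⁻¹ * ∑ k ∈ Finset.range (n + 1),
              c₀ * H n ((k : ℝ) / (n + 1 : ℕ)) := by
            rw [← Finset.mul_sum]
            ring
        _ ≤ ((n + 1 : ℕ) : ℝ≥0∞)⁻¹ * (((n + 1 : ℕ) : ℝ≥0∞) * M) := by
            gcongr
            exact (Finset.sum_le_sum h2).trans (hle n)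
        _ = M := by
            rw [← mul_assoc, ENNReal.inv_mul_cancel h0 (ENNReal.natCast_ne_top _), one_mul]
    have hr0 : ∀ θ ∈ Ico (0 : ℝ) 1, 0 < r θ := fun θ hθ => by linarith [(hrm θ hθ).1]
    have hpt : ∀ θ ∈ Ico (0 : ℝ) 1, en p u (t₀ / r θ)
        ≤ liminf (fun j => H (φ j) (st (φ j) θ)) atTop := by
      intro θ hθ
      apply en_lsc
      apply hlim.div _ (hr0 θ hθ).ne'
      have h1 : Tendsto (fun j => st (φ j) θ) atTop (𝓝 θ) := by
        have h2 := tendsto_nat_floor_mul_div_atTop (R := ℝ) hθ.1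
        have h3 : Tendsto (fun j => ((φ j + 1 : ℕ) : ℝ)) atTop atTop :=
          tendsto_natCast_atTop_atTop.comp
            ((tendsto_add_atTop_nat 1).comp hφ.tendsto_atTop)
        refine (h2.comp h3).congr ?_
        intro j
        rw [hst]
        simp only [Function.comp_apply]
        rw [mul_comm θ]
      rw [hr]
      exact (h1.const_mul _).const_add _
    calc c₁ * ∫⁻ t in Icc (1 : ℝ) 2, en p u t
        ≤ ∫⁻ θ in Ico (0 : ℝ) 1, en p u (t₀ / r θ) := subst_le ha hab ht₀ (en p u)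
      _ ≤ ∫⁻ θ in Ico (0 : ℝ) 1, liminf (fun j => H (φ j) (st (φ j) θ)) atTop :=
          setLIntegral_mono' measurableSet_Ico hpt
      _ ≤ liminf (fun j => ∫⁻ θ in Ico (0 : ℝ) 1, H (φ j) (st (φ j) θ)) atTop :=
          lintegral_liminf_le fun j => hHm _
      _ ≤ M / c₀ := by
          apply liminf_le_of_frequently_le'
          exact Frequently.of_forall fun j => hHi _
  set Q : ℝ≥0∞ := ((c₀ * c₁)⁻¹) ^ (1 / p) * (L + 1) with hQ
  have hcc : c₀ * c₁ ≠ 0 := mul_ne_zero hc₀0 hc₁0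
  have hcct : c₀ * c₁ ≠ ⊤ := ENNReal.mul_ne_top hc₀t hc₁t
  have hQt : Q ≠ ⊤ := by
    rw [hQ]
    apply ENNReal.mul_ne_top
    · exact ENNReal.rpow_ne_top_of_nonneg (by positivity) (ENNReal.inv_ne_top.2 hcc)
    · simp
  refine ⟨Q.toNNReal, fun C hgood u => ?_⟩
  rw [ENNReal.coe_mul, ENNReal.coe_toNNReal hQt]
  have h1 := key C hgood u
  rw [ENNReal.le_div_iff_mul_le (Or.inl hc₀0) (Or.inl hc₀t)] at h1
  have h2 : (∫⁻ t in Icc (1 : ℝ) 2, en p u t) * (c₀ * c₁) ≤ (C * ((L + 1) * sz p s u)) ^ p := by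
    refine le_trans (le_of_eq ?_) h1
    ring
  rw [← ENNReal.le_div_iff_mul_le (Or.inl hcc) (Or.inl hcct)] at h2
  refine h2.trans (le_of_eq ?_)
  have h3 : Q * C * sz p s u = ((c₀ * c₁)⁻¹) ^ (1 / p) * (C * ((L + 1) * sz p s u)) := by
    rw [hQ]
    ring
  rw [h3, ENNReal.mul_rpow_of_nonneg (((c₀ * c₁)⁻¹) ^ (1 / p)) _ hp0.le, ← ENNReal.rpow_mul,
    one_div, inv_mul_cancel₀ hp0.ne', ENNReal.rpow_one, div_eq_mul_inv, mul_comm]

end Pool.Agent.Q93.LSP
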