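import Mathlib
import Pool.Agent.Q93.LSP.H
set_option autoImplicit false

/-! Equivalent forms: all intervals of times, one good time, Cauchy sequences, summable sequences. -/

namespace Pool.Agent.Q93.LSP

open MeasureTheory Set Filter Topology ProbabilityTheory Module
open scoped ENNReal NNReal FourierTransform RealInnerProductSpace SchwartzMap

variable {E : Type*} [NormedAddCommGroup E] [InnerProductSpace ℝ E] [FiniteDimensional ℝ E]
  [MeasurableSpace E] [BorelSpace E]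

/-- the estimate averaged over `[a,b]` -/
def Av (E : Type*) [NormedAddCommGroup E] [InnerProductSpace ℝ E] [FiniteDimensional ℝ E]
    [MeasurableSpace E] [BorelSpace E] (p s a b : ℝ) (C : ℝ≥0) : Prop :=
  ∀ u : 𝓢(E, ℂ) × 𝓢(E, ℂ), ∫⁻ t in Icc a b, en p u t ≤ (C * sz p s u) ^ p

/-- one good time in `[a,b]` -/
def Gd (E : Type*) [NormedAddCommGroup E] [InnerProductSpace ℝ E] [FiniteDimensional ℝ E]
    [MeasurableSpace E] [BorelSpace E] (p s a b : ℝ) (C : ℝ≥0) : Prop :=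
  ∀ v : 𝓢(E, ℂ) × 𝓢(E, ℂ), ∃ t ∈ Icc a b,
    eLpNorm (wv v t) (ENNReal.ofReal p) volume ≤ C * sz p s v

lemma lint_scale {ρ : ℝ} (h : 0 < ρ) (f : ℝ → ℝ≥0∞) :
    ∫⁻ t in Icc ρ (ρ * 2), f t = ENNReal.ofReal ρ * ∫⁻ t in Icc (1 : ℝ) 2, f (ρ * t) := by
  have h1 : (fun t => ρ * t) '' Icc (1 : ℝ) 2 = Icc ρ (ρ * 2) := by
    rw [Set.image_mul_left_Icc' h]
    rw [mul_one]
  have h2 := lintegral_image_eq_lintegral_abs_deriv_mul (s := Icc (1 : ℝ) 2)
    (f := fun t => ρ * t) (f' := fun _ => ρ) measurableSet_Icc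
    (fun t _ => by
      have := ((hasDerivAt_id t).const_mul ρ).hasDerivWithinAt (s := Icc (1 : ℝ) 2)
      simpa using this)
    (fun x _ y _ hxy => mul_left_cancel₀ h.ne' hxy) f
  rw [h1, abs_of_pos h] at h2
  rw [h2, lintegral_const_mul' _ _ ENNReal.ofReal_ne_top]

lemma Av.scale {p : ℝ} (hp : 1 ≤ p) {s : ℝ} {C : ℝ≥0} (h : Av E p s 1 2 C) {ρ : ℝ} (hρ : 0 < ρ) :
    ∃ C' : ℝ≥0, Av E p s ρ (ρ * 2) C' := by
  have hp0 : 0 < p := by linarith
  have hρi : 0 < ρ⁻¹ := inv_pos.2 hρ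
  obtain ⟨L, hL⟩ := D_bound (E := E) hp s ρ⁻¹ hρi
  have hLs : ∀ u : 𝓢(E, ℂ) × 𝓢(E, ℂ), sz p s (D ρ⁻¹ u) ≤ L * sz p s u := by
    intro u
    have h1 := hL ρ⁻¹ ⟨by linarith, le_rfl⟩ u
    unfold sz
    rw [mul_add]
    exact add_le_add h1.1 h1.2
  set c : ℝ≥0∞ := ENNReal.ofReal (ρ⁻¹ ^ finrank ℝ E) with hc
  have hc0 : c ≠ 0 := by
    rw [hc]
    simp only [ne_eq, ENNReal.ofReal_eq_zero, not_le]
    positivity
  have hct : c ≠ ⊤ := ENNReal.ofReal_ne_top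
  have key : ∀ u : 𝓢(E, ℂ) × 𝓢(E, ℂ), ∫⁻ t in Icc ρ (ρ * 2), en p u t
      ≤ ENNReal.ofReal ρ * ((C * (L * sz p s u)) ^ p / c) := by
    intro u
    rw [lint_scale hρ]
    gcongr
    rw [ENNReal.le_div_iff_mul_le (Or.inl hc0) (Or.inl hct), mul_comm,
      ← lintegral_const_mul' _ _ hct]
    have e : ∀ t, c * en p u (ρ * t) = en p (D ρ⁻¹ u) t := by
      intro t
      rw [en_D hρi, hc]
      congr 2
      rw [div_inv_eq_mul, mul_comm]
    simp_rw [e]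
    refine (h _).trans ?_
    gcongr
    exact hLs u
  set Q : ℝ≥0∞ := (ENNReal.ofReal ρ / c) ^ (1 / p) * (C * L) with hQ
  have hQt : Q ≠ ⊤ := by
    rw [hQ]
    apply ENNReal.mul_ne_top
    · exact ENNReal.rpow_ne_top_of_nonneg (by positivity)
        (ENNReal.div_ne_top ENNReal.ofReal_ne_top hc0)
    · exact ENNReal.mul_ne_top ENNReal.coe_ne_top ENNReal.coe_ne_top
  refine ⟨Q.toNNReal, fun u => ?_⟩
  rw [ENNReal.coe_toNNReal hQt]
  refine (key u).trans (le_of_eq ?_)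
  have h3 : Q * sz p s u = (ENNReal.ofReal ρ / c) ^ (1 / p) * (C * (L * sz p s u)) := by
    rw [hQ]
    ring
  rw [h3, ENNReal.mul_rpow_of_nonneg ((ENNReal.ofReal ρ / c) ^ (1 / p)) _ hp0.le,
    ← ENNReal.rpow_mul, one_div, inv_mul_cancel₀ hp0.ne', ENNReal.rpow_one, div_eq_mul_inv,
    div_eq_mul_inv]
  ring

lemma Av.mono {p s a b a' b' : ℝ} {C : ℝ≥0} (h : Av E p s a b C) (ha : a ≤ a') (hb : b' ≤ b) :
    Av E p s a' b' C := fun u =>
  (lintegral_mono_set (Icc_subset_Icc ha hb)).trans (h u)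

lemma Av.all {p : ℝ} (hp : 1 ≤ p) {s : ℝ} {C : ℝ≥0} (h : Av E p s 1 2 C) {a b : ℝ} (ha : 0 < a) :
    ∃ C' : ℝ≥0, Av E p s a b C' := by
  have hp0 : 0 < p := by linarith
  have step : ∀ J : ℕ, ∃ C' : ℝ≥0, Av E p s a (a * 2 ^ (J + 1)) C' := by
    intro J
    induction J with
    | zero =>
      have := h.scale hp ha
      simpa using this
    | succ J ih =>
      obtain ⟨C₁, h1⟩ := ih
      obtain ⟨C₂, h2⟩ := h.scale hp (ρ := a * 2 ^ (J + 1)) (by positivity)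
      refine ⟨C₁ + C₂, fun u => ?_⟩
      have hsub : Icc a (a * 2 ^ (J + 1 + 1)) ⊆ Icc a (a * 2 ^ (J + 1)) ∪
          Icc (a * 2 ^ (J + 1)) (a * 2 ^ (J + 1) * 2) := by
        intro t ht
        rcases le_total t (a * 2 ^ (J + 1)) with h3 | h3
        · exact Or.inl ⟨ht.1, h3⟩
        · refine Or.inr ⟨h3, ht.2.trans (le_of_eq ?_)⟩
          ring
      refine (lintegral_mono_set hsub).trans ((lintegral_union_le _ _ _).trans ?_)
      refine (add_le_add (h1 u) (h2 u)).trans ?_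
      refine (ENNReal.add_rpow_le_rpow_add _ _ hp).trans (le_of_eq ?_)
      rw [ENNReal.coe_add, add_mul]
  obtain ⟨J, hJ⟩ := exists_nat_gt (b / a)
  obtain ⟨C', hC'⟩ := step J
  refine ⟨C', hC'.mono le_rfl ?_⟩
  rw [div_lt_iff₀ ha] at hJ
  have h1 : (J : ℝ) ≤ 2 ^ (J + 1) := by
    have : J ≤ 2 ^ (J + 1) := (Nat.lt_two_pow_self.trans
      (Nat.pow_lt_pow_right (by norm_num) (Nat.lt_succ_self J))).le
    exact_mod_cast this
  calc b ≤ J * a := hJ.le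
    _ ≤ 2 ^ (J + 1) * a := by gcongr
    _ = a * 2 ^ (J + 1) := mul_comm _ _

lemma Av.good {p : ℝ} (hp : 1 ≤ p) {s : ℝ} {C : ℝ≥0} (h : Av E p s 1 2 C) : Gd E p s 1 2 C := by
  have hp0 : 0 < p := by linarith
  intro v
  have hv : (volume (Icc (1 : ℝ) 2)) = 1 := by
    rw [Real.volume_Icc]
    norm_num
  obtain ⟨t, ht, hle⟩ := exists_le_setLAverage (μ := volume) (s := Icc (1 : ℝ) 2)
    (f := en p v) (by rw [hv]; exact one_ne_zero) (by rw [hv]; exact ENNReal.one_ne_top)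
    (en_meas v).aemeasurable
  refine ⟨t, ht, ?_⟩
  rw [setLAverage_eq, hv, div_one] at hle
  have := hle.trans (h v)
  rw [en_eq hp] at this
  exact (ENNReal.rpow_le_rpow_iff hp0).1 this

/-- the intervals exhausting `(0, ∞)` -/
def It (k : ℕ) : Set ℝ := Icc (1 / ((k : ℝ) + 1)) ((k : ℝ) + 1)

lemma It_compact (k : ℕ) : IsCompact (It k) := isCompact_Icc

lemma It_mono {k n : ℕ} (h : k ≤ n) : It k ⊆ It n := by
  have h1 : (k : ℝ) ≤ n := by exact_mod_cast h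
  apply Icc_subset_Icc
  · apply one_div_le_one_div_of_le (by positivity)
    linarith
  · linarith

lemma It_exhaust {t : ℝ} (ht : 0 < t) : ∃ k, t ∈ It k := by
  obtain ⟨k, hk⟩ := exists_nat_gt (max t (1 / t))
  have h1 := (le_max_left _ _).trans_lt hk
  have h2 := (le_max_right _ _).trans_lt hk
  refine ⟨k, ?_, by linarith⟩
  rw [div_le_iff₀ (by positivity)]
  rw [div_lt_iff₀ ht] at h2
  nlinarith

lemma ae_pos {P : ℝ → Prop} (h : ∀ k, ∀ᵐ t ∂(volume.restrict (It k)), P t) :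
    ∀ᵐ t ∂(volume.restrict (Ioi (0 : ℝ))), P t := by
  have h1 : Ioi (0 : ℝ) ⊆ ⋃ k, It k := by
    intro t ht
    obtain ⟨k, hk⟩ := It_exhaust ht
    exact mem_iUnion.2 ⟨k, hk⟩
  exact ae_restrict_of_ae_restrict_of_subset h1 ((ae_restrict_iUnion_iff _ _).2 h)

lemma exists_pos {P : ℝ → Prop} (h : ∀ᵐ t ∂(volume.restrict (Ioi (0 : ℝ))), P t) :
    ∃ t > 0, P t := by
  by_contra hc
  push Not at hc
  rw [ae_restrict_iff' measurableSet_Ioi] at h
  have h1 : volume (Ioi (0 : ℝ)) = 0 := by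
    apply measure_mono_null _ (ae_iff.1 h)
    intro t ht h2
    exact hc t ht (h2 ht)
  rw [Real.volume_Ioi] at h1
  exact absurd h1 (by simp)

lemma It_pos (k : ℕ) : 0 < 1 / ((k : ℝ) + 1) := by positivity

lemma It_le (k : ℕ) : 1 / ((k : ℝ) + 1) ≤ (k : ℝ) + 1 := by
  have h : (1 : ℝ) ≤ (k : ℝ) + 1 := by
    have := Nat.cast_nonneg (α := ℝ) k
    linarith
  rw [div_le_iff₀ (by positivity)]
  nlinarith

lemma sz_add {p : ℝ} (hp : 1 ≤ p) (s : ℝ) (u v : 𝓢(E, ℂ) × 𝓢(E, ℂ)) :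
    sz p s (u + v) ≤ sz p s u + sz p s v := by
  have hq1 : 1 ≤ ENNReal.ofReal p := by
    rw [← ENNReal.ofReal_one]
    exact ENNReal.ofReal_le_ofReal hp
  have h : ∀ (s : ℝ) (f g : 𝓢(E, ℂ)), nm (ENNReal.ofReal p) s (f + g)
      ≤ nm (ENNReal.ofReal p) s f + nm (ENNReal.ofReal p) s g := by
    intro s f g
    have e : mu (bs s) (f + g) = mu (bs s) f + mu (bs s) g := by
      ext x
      exact mu_add (bs_sym s) f g x
    unfold nm
    rw [e]
    exact eLpNorm_add_le (mu_cont (bs_sym s) f).aestronglyMeasurable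
      (mu_cont (bs_sym s) g).aestronglyMeasurable hq1
  unfold sz
  rw [Prod.fst_add, Prod.snd_add]
  refine (add_le_add (h s _ _) (h (s - 1) _ _)).trans (le_of_eq ?_)
  abel

lemma sz_smul (p s : ℝ) (c : ℂ) (u : 𝓢(E, ℂ) × 𝓢(E, ℂ)) : sz p s (c • u) = ‖c‖ₑ * sz p s u := by
  unfold sz
  rw [Prod.smul_fst, Prod.smul_snd, nm_smul, nm_smul, mul_add]

lemma sz_T {p : ℝ} (hp : 1 ≤ p) (s : ℝ) (z : E) (u : 𝓢(E, ℂ) × 𝓢(E, ℂ)) :
    sz p s (T z u) = sz p s u := by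
  have hp0 : 0 < p := by linarith
  have h : ∀ (s : ℝ) (f : 𝓢(E, ℂ)), nm (ENNReal.ofReal p) s (tr z f)
      = nm (ENNReal.ofReal p) s f := by
    intro s f
    unfold nm
    apply ENNReal.rpow_left_injective hp0.ne'
    simp only
    rw [pw_eq hp, pw_eq hp]
    simp_rw [mu_tr]
    exact lintegral_sub_right_eq_self (fun x => ‖mu (bs s) f x‖ₑ ^ p) _
  unfold sz T
  rw [h, h]

lemma nrm_smul (p : ℝ) (c : ℂ) (u : 𝓢(E, ℂ) × 𝓢(E, ℂ)) (t : ℝ) :
    eLpNorm (wv (c • u) t) (ENNReal.ofReal p) volume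
      = ‖c‖ₑ * eLpNorm (wv u t) (ENNReal.ofReal p) volume := by
  rw [← eLpNorm_const_smul]
  congr 1
  ext x
  exact wv_smul c u t x

end Pool.Agent.Q93.LSP
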