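import Mathlib
import Pool.Agent.Q93.LSP.I
set_option autoImplicit false

/-! If there is no good time, one sequence of data is bad at all times. -/

namespace Pool.Agent.Q93.LSP

open MeasureTheory Set Filter Topology ProbabilityTheory Module
open scoped ENNReal NNReal FourierTransform RealInnerProductSpace SchwartzMap

variable {E : Type*} [NormedAddCommGroup E] [InnerProductSpace ℝ E] [FiniteDimensional ℝ E]
  [MeasurableSpace E] [BorelSpace E]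

/-- time reflection of data -/
noncomputable def Rf (u : 𝓢(E, ℂ) × 𝓢(E, ℂ)) : 𝓢(E, ℂ) × 𝓢(E, ℂ) := (u.1, (-1 : ℂ) • u.2)

lemma wv_Rf (u : 𝓢(E, ℂ) × 𝓢(E, ℂ)) (t : ℝ) (x : E) : wv (Rf u) t x = wv u (-t) x := by
  have e1 : (cs (-t) : E → ℂ) = cs t := by
    ext ξ
    unfold cs
    rw [show 2 * Real.pi * (-t) * ‖ξ‖ = -(2 * Real.pi * t * ‖ξ‖) by ring, Real.cos_neg]
  have e2 : (sc (-t) : E → ℂ) = sc t := by
    ext ξ
    unfold sc
    rw [show 2 * Real.pi * (-t) * ‖ξ‖ = -(2 * Real.pi * t * ‖ξ‖) by ring, Real.sinc_neg]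
  unfold wv Rf
  simp only
  rw [mu_smul, e1, e2]
  push_cast
  ring

lemma en_Rf (p : ℝ) (u : 𝓢(E, ℂ) × 𝓢(E, ℂ)) (t : ℝ) : en p (Rf u) t = en p u (-t) := by
  unfold en
  simp_rw [wv_Rf]

lemma sz_Rf (p s : ℝ) (u : 𝓢(E, ℂ) × 𝓢(E, ℂ)) : sz p s (Rf u) = sz p s u := by
  unfold sz Rf
  simp only
  rw [nm_smul, enorm_neg, enorm_one, one_mul]

/-- the symmetric sets of times exhausting `ℝ \ {0}` -/
def Is (k : ℕ) : Set ℝ := {t | |t| ∈ It k}

lemma Is_compact (k : ℕ) : IsCompact (Is k) := by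
  have h1 : IsClosed (Is k) := isClosed_Icc.preimage continuous_abs
  apply Metric.isCompact_of_isClosed_isBounded h1
  rw [isBounded_iff_forall_norm_le]
  exact ⟨k + 1, fun t ht => ht.2⟩

lemma Is_mono {k n : ℕ} (h : k ≤ n) : Is k ⊆ Is n := fun _ ht => It_mono h ht

lemma Is_exhaust {t : ℝ} (ht : t ≠ 0) : ∃ k, t ∈ Is k := It_exhaust (abs_pos.2 ht)

lemma bad_data {p : ℝ} (hp : 1 ≤ p) {s : ℝ} (n : ℕ)
    (h : ∀ C : ℝ≥0, ¬ Gd E p s (1 / ((n : ℝ) + 1)) ((n : ℝ) + 1) C) :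
    ∃ F : 𝓢(E, ℂ) × 𝓢(E, ℂ), sz p s F ≤ (2⁻¹ : ℝ≥0∞) ^ n ∧ ∀ t ∈ It n, 1 < en p F t := by
  have hp0 : 0 < p := by linarith
  have h1 := h (2 ^ n)
  unfold Gd at h1
  push Not at h1
  obtain ⟨v, hv⟩ := h1
  have ht1 : (1 : ℝ) ∈ Icc (1 / ((n : ℝ) + 1)) ((n : ℝ) + 1) := by
    have : (0 : ℝ) ≤ n := Nat.cast_nonneg n
    constructor
    · rw [div_le_one (by positivity)]
      linarith
    · linarith
  set σ : ℝ≥0∞ := sz p s v with hσ
  have hσt : σ ≠ ⊤ := (sz_lt_top p s v).ne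
  have hσ0 : σ ≠ 0 := by
    intro hc
    have hv0 := sz_eq_zero hp hc
    have h2 := hv 1 ht1
    rw [hv0] at h2
    have e : wv (0 : 𝓢(E, ℂ) × 𝓢(E, ℂ)) 1 = 0 := by
      ext x
      exact wv_zero 1 x
    rw [e, eLpNorm_zero] at h2
    exact absurd h2 (not_lt.2 zero_le)
  set r : ℝ≥0∞ := 2 ^ n * σ with hr
  have hr0 : r ≠ 0 := mul_ne_zero (pow_ne_zero _ (by norm_num)) hσ0
  have hrt : r ≠ ⊤ := ENNReal.mul_ne_top (ENNReal.pow_ne_top (by norm_num)) hσt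
  set c : ℂ := ((r.toReal⁻¹ : ℝ) : ℂ) with hc
  have hrr : 0 < r.toReal := ENNReal.toReal_pos hr0 hrt
  have hcn : ‖c‖ₑ = r⁻¹ := by
    rw [hc, ← ofReal_norm, Complex.norm_real, Real.norm_eq_abs, abs_of_pos (inv_pos.2 hrr),
      ENNReal.ofReal_inv_of_pos hrr, ENNReal.ofReal_toReal hrt]
  refine ⟨c • v, ?_, ?_⟩
  · rw [sz_smul, hcn, ← hσ, hr, ENNReal.mul_inv (Or.inr hσt) (Or.inr hσ0), mul_assoc,
      ENNReal.inv_mul_cancel hσ0 hσt, mul_one, ENNReal.inv_pow]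
  · intro t ht
    have h2 := hv t ht
    rw [en_eq hp, nrm_smul, hcn]
    apply ENNReal.one_lt_rpow _ hp0
    rw [← ENNReal.inv_mul_cancel hr0 hrt]
    apply ENNReal.mul_lt_mul_right (ENNReal.inv_ne_zero.2 hrt) (ENNReal.inv_ne_top.2 hr0)
    rw [hr]
    push_cast at h2
    exact h2

/-- the `p`-th power of the norm of a slice -/
noncomputable def sl (p : ℝ) (W : ℝ × E → ℂ) (t : ℝ) : ℝ≥0∞ := ∫⁻ x, ‖W (t, x)‖ₑ ^ p

lemma sl_wv (p : ℝ) (v : 𝓢(E, ℂ) × 𝓢(E, ℂ)) (t : ℝ) :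
    sl p (fun z : ℝ × E => wv v z.1 z.2) t = en p v t := rfl

/-- lower bounds of the norms on compact sets of times persist under locally small changes -/
lemma sl_open {p : ℝ} {W : ℝ × E → ℂ} (hW : Continuous W) {K : Set ℝ} (hK : IsCompact K)
    {γ : ℝ≥0∞} (h : ∀ t ∈ K, γ < sl p W t) :
    ∀ᶠ j : ℕ in atTop, ∀ W' : ℝ × E → ℂ, Continuous W' →
      (∀ t ∈ K, ∀ x : E, ‖x‖ ≤ j → ‖W' (t, x) - W (t, x)‖ ≤ 1 / ((j : ℝ) + 1)) →
        ∀ t ∈ K, γ < sl p W' t := by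
  by_contra hc
  rw [Filter.not_eventually] at hc
  obtain ⟨φ, hφ, hφ2⟩ := Filter.extraction_of_frequently_atTop hc
  push Not at hφ2
  choose W' hW'c hW' t ht hle using hφ2
  obtain ⟨t₀, ht₀, ψ, hψ, hlim⟩ := hK.tendsto_subseq ht
  have hφψ : Tendsto (fun i => φ (ψ i)) atTop atTop := (hφ.comp hψ).tendsto_atTop
  have h1 : ∀ x, ‖W (t₀, x)‖ₑ ^ p
      = liminf (fun i => ‖W' (ψ i) (t (ψ i), x)‖ₑ ^ p) atTop := by
    intro x
    refine (Tendsto.liminf_eq ?_).symm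
    refine ((ENNReal.continuous_rpow_const (y := p)).tendsto _).comp (Tendsto.enorm ?_)
    have h2 : Tendsto (fun i => W (t (ψ i), x)) atTop (𝓝 (W (t₀, x))) := by
      have h3 : Continuous fun t : ℝ => (t, x) := continuous_id.prodMk continuous_const
      exact ((hW.comp h3).tendsto t₀).comp hlim
    have h3 : Tendsto (fun i => W' (ψ i) (t (ψ i), x) - W (t (ψ i), x)) atTop (𝓝 0) := by
      have h4 : Tendsto (fun i => 1 / ((φ (ψ i) : ℝ) + 1)) atTop (𝓝 0) :=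
        tendsto_one_div_add_atTop_nhds_zero_nat.comp hφψ
      apply squeeze_zero_norm' _ h4
      obtain ⟨N, hN⟩ := exists_nat_gt ‖x‖
      filter_upwards [hφψ.eventually_ge_atTop N] with i hi
      apply hW' (ψ i) _ (ht _) x
      have : (N : ℝ) ≤ φ (ψ i) := by exact_mod_cast hi
      linarith
    have h4 := h3.add h2
    simpa using h4
  have h2 : sl p W t₀ ≤ γ := by
    unfold sl
    simp_rw [h1]
    refine (lintegral_liminf_le fun i => ?_).trans ?_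
    · have h3 : Continuous fun x : E => (t (ψ i), x) := continuous_const.prodMk continuous_id
      exact ((hW'c (ψ i)).comp h3).measurable.enorm.pow_const p
    · apply liminf_le_of_frequently_le'
      exact Frequently.of_forall fun i => hle (ψ i)
  exact absurd (h t₀ ht₀) (not_lt.2 h2)

/-- translates move out of every compact set -/
lemma far_small {e : E} (he : ‖e‖ = 1) (F : 𝓢(E, ℂ) × 𝓢(E, ℂ)) (A R : ℝ) {ε : ℝ} (hε : 0 < ε) :
    ∀ᶠ m : ℕ in atTop, ∀ t : ℝ, |t| ≤ A → ∀ x : E, ‖x‖ ≤ R → ‖wv (T ((m : ℝ) • e) F) t x‖ ≤ ε := by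
  by_contra hc
  rw [Filter.not_eventually] at hc
  obtain ⟨φ, hφ, hφ2⟩ := Filter.extraction_of_frequently_atTop hc
  push Not at hφ2
  choose t ht x hx hgt using hφ2
  have ht' : ∀ i, t i ∈ Icc (-A) A := fun i => abs_le.1 (ht i)
  obtain ⟨t₀, -, ψ, hψ, hlim⟩ := (isCompact_Icc (a := -A) (b := A)).tendsto_subseq ht'
  have h1 : Tendsto (fun i => x (ψ i) - ((φ (ψ i) : ℕ) : ℝ) • e) atTop (cocompact E) := by
    rw [← Metric.cobounded_eq_cocompact, ← tendsto_norm_atTop_iff_cobounded]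
    have h2 : Tendsto (fun i => ((φ (ψ i) : ℕ) : ℝ) - R) atTop atTop := by
      apply tendsto_atTop_add_const_right
      exact tendsto_natCast_atTop_atTop.comp (hφ.comp hψ).tendsto_atTop
    apply tendsto_atTop_mono _ h2
    intro i
    have h3 : ‖((φ (ψ i) : ℕ) : ℝ) • e‖ = φ (ψ i) := by
      rw [norm_smul, he, mul_one, Real.norm_eq_abs, Nat.abs_cast]
    have h4 : ‖((φ (ψ i) : ℕ) : ℝ) • e‖ ≤ ‖x (ψ i) - ((φ (ψ i) : ℕ) : ℝ) • e‖ + ‖x (ψ i)‖ := by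
      have : ((φ (ψ i) : ℕ) : ℝ) • e = -(x (ψ i) - ((φ (ψ i) : ℕ) : ℝ) • e) + x (ψ i) := by abel
      calc ‖((φ (ψ i) : ℕ) : ℝ) • e‖
          = ‖-(x (ψ i) - ((φ (ψ i) : ℕ) : ℝ) • e) + x (ψ i)‖ := by rw [← this]
        _ ≤ ‖-(x (ψ i) - ((φ (ψ i) : ℕ) : ℝ) • e)‖ + ‖x (ψ i)‖ := norm_add_le _ _
        _ = _ := by rw [norm_neg]
    have := hx (ψ i)
    rw [h3] at h4
    linarith
  have h2 := (wv_decay F hlim h1).norm
  rw [norm_zero] at h2
  obtain ⟨i, hi⟩ := ((tendsto_order.1 h2).2 ε hε).exists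
  have h3 := hgt (ψ i)
  rw [wv_T] at h3
  exact lt_irrefl _ (h3.trans hi)

/-- partial sums of solutions -/
noncomputable def ps (G : ℕ → 𝓢(E, ℂ) × 𝓢(E, ℂ)) (N : ℕ) (z : ℝ × E) : ℂ :=
  ∑ n ∈ Finset.range N, wv (G n) z.1 z.2

lemma ps_cont (G : ℕ → 𝓢(E, ℂ) × 𝓢(E, ℂ)) (N : ℕ) : Continuous (ps G N) :=
  continuous_finsetSum _ fun n _ => wv_cont (G n)

lemma ps_wv (G : ℕ → 𝓢(E, ℂ) × 𝓢(E, ℂ)) (N : ℕ) (z : ℝ × E) :
    ps G N z = wv (∑ n ∈ Finset.range N, G n) z.1 z.2 := (wv_sum _ _ _ _).symm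

lemma half_sum (N M : ℕ) : ∑ n ∈ Finset.Ico N M, (1 / 2 : ℝ) ^ (n + 1) ≤ 1 := by
  have h1 : Summable fun n : ℕ => (1 / 2 : ℝ) ^ (n + 1) := by
    simpa [pow_succ] using (summable_geometric_two).mul_right (1 / 2 : ℝ)
  have h2 : ∑' n : ℕ, (1 / 2 : ℝ) ^ (n + 1) = 1 := by
    simp_rw [pow_succ]
    rw [tsum_mul_right, tsum_geometric_two]
    norm_num
  exact (h1.sum_le_tsum _ fun n _ => by positivity).trans h2.le

lemma bad_sym {p : ℝ} (hp : 1 ≤ p) {s : ℝ} {e : E} (he : ‖e‖ = 1) (n : ℕ)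
    (h : ∀ C : ℝ≥0, ¬ Gd E p s (1 / ((n : ℝ) + 1)) ((n : ℝ) + 1) C) :
    ∃ F : 𝓢(E, ℂ) × 𝓢(E, ℂ), sz p s F ≤ 2 * (2⁻¹ : ℝ≥0∞) ^ n ∧ ∀ t ∈ Is n, 1 < en p F t := by
  obtain ⟨F, h1, h2⟩ := bad_data hp n h
  have h3 : ∀ t ∈ Is n, 1 < en p F t + en p (Rf F) t := by
    intro t ht
    rw [en_Rf]
    rcases le_total 0 t with h0 | h0
    · have ht' : t ∈ It n := by
        have : |t| ∈ It n := ht
        rwa [abs_of_nonneg h0] at this
      exact (h2 t ht').trans_le le_self_add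
    · have ht' : -t ∈ It n := by
        have : |t| ∈ It n := ht
        rwa [abs_of_nonpos h0] at this
      exact (h2 _ ht').trans_le le_add_self
  obtain ⟨m, hm⟩ := (add_far he F (Rf F) (Is_compact n) h3).exists
  refine ⟨_, ?_, hm⟩
  refine (sz_add hp s _ _).trans ?_
  rw [sz_T hp, sz_Rf, two_mul]
  exact add_le_add h1 h1

lemma hump {p : ℝ} {e : E} (he : ‖e‖ = 1)
    {F : ℕ → 𝓢(E, ℂ) × 𝓢(E, ℂ)} (hF2 : ∀ n, ∀ t ∈ Is n, 1 < en p (F n) t) :
    ∃ (z : ℕ → E) (u : ℝ × E → ℂ),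
      TendstoLocallyUniformly (ps fun n => T (z n) (F n)) u atTop ∧
        ∀ t : ℝ, t ≠ 0 → sl p u t = ⊤ := by
  set Inv : ℕ → (𝓢(E, ℂ) × 𝓢(E, ℂ)) → Prop := fun n v =>
    ∀ k ∈ Finset.range n, ∀ t ∈ Is k, ((n - k : ℕ) : ℝ≥0∞) < en p v t with hInv
  set Op : ℕ → (𝓢(E, ℂ) × 𝓢(E, ℂ)) → ℕ → Prop := fun n v j =>
    ∀ k ∈ Finset.range n, ∀ W' : ℝ × E → ℂ, Continuous W' →
      (∀ t ∈ Is k, ∀ x : E, ‖x‖ ≤ j → ‖W' (t, x) - wv v t x‖ ≤ 1 / ((j : ℝ) + 1)) →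
        ∀ t ∈ Is k, ((n - k : ℕ) : ℝ≥0∞) < sl p W' t with hOp
  have step : ∀ (n : ℕ) (v : 𝓢(E, ℂ) × 𝓢(E, ℂ)) (j : ℕ), ∃ m : ℕ,
      (Inv n v → Inv (n + 1) (v + T ((m : ℝ) • e) (F n))) ∧
      ∀ t : ℝ, |t| ≤ n + 1 → ∀ x : E, ‖x‖ ≤ j + n →
        ‖wv (T ((m : ℝ) • e) (F n)) t x‖ ≤ (1 / 2) ^ (n + 1) / ((j : ℝ) + 1) := by
    intro n v j
    have h0 := far_small he (F n) (n + 1) (j + n)
      (ε := (1 / 2) ^ (n + 1) / ((j : ℝ) + 1)) (by positivity)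
    by_cases hv : Inv n v
    · have h1 : ∀ᶠ m : ℕ in atTop, ∀ k ∈ Finset.range (n + 1), ∀ t ∈ Is k,
          ((n + 1 - k : ℕ) : ℝ≥0∞) < en p (v + T ((m : ℝ) • e) (F n)) t := by
        rw [Filter.eventually_all_finset]
        intro k hk
        apply add_far he v (F n) (Is_compact k)
        intro t ht
        have hkn : k ≤ n := Nat.lt_succ_iff.1 (Finset.mem_range.1 hk)
        have h2 := hF2 n t (Is_mono hkn ht)
        rcases hkn.lt_or_eq with h3 | h3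
        · have h4 := hv k (Finset.mem_range.2 h3) t ht
          have h5 : ((n + 1 - k : ℕ) : ℝ≥0∞) = ((n - k : ℕ) : ℝ≥0∞) + 1 := by
            rw [show n + 1 - k = (n - k) + 1 by omega]
            push_cast
            rfl
          rw [h5]
          exact ENNReal.add_lt_add h4 h2
        · subst h3
          have h5 : ((k + 1 - k : ℕ) : ℝ≥0∞) = 1 := by
            rw [Nat.add_sub_cancel_left]
            exact Nat.cast_one
          rw [h5]
          exact h2.trans_le le_add_self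
      obtain ⟨m, hm1, hm2⟩ := (h1.and h0).exists
      exact ⟨m, fun _ => hm1, hm2⟩
    · obtain ⟨m, hm⟩ := h0.exists
      exact ⟨m, fun h => absurd h hv, hm⟩
  have step2 : ∀ (n : ℕ) (v : 𝓢(E, ℂ) × 𝓢(E, ℂ)) (j : ℕ), ∃ j' : ℕ, j ≤ j' ∧
      (Inv n v → Op n v j') := by
    intro n v j
    by_cases hv : Inv n v
    · have h1 : ∀ᶠ j' : ℕ in atTop, Op n v j' := by
        rw [hOp]
        rw [Filter.eventually_all_finset]
        intro k hk
        exact sl_open (W := fun z : ℝ × E => wv v z.1 z.2) (wv_cont v) (Is_compact k) (hv k hk)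
      obtain ⟨j', h2, h3⟩ := (h1.and (eventually_ge_atTop j)).exists
      exact ⟨j', h3, fun _ => h2⟩
    · exact ⟨j, le_rfl, fun h => absurd h hv⟩
  choose g hg1 hg2 using step
  choose h hh1 hh2 using step2
  set st : ℕ → (𝓢(E, ℂ) × 𝓢(E, ℂ)) × ℕ := fun n => Nat.rec (0, 0)
    (fun n q => (q.1 + T (((g n q.1 q.2 : ℕ) : ℝ) • e) (F n),
      h (n + 1) (q.1 + T (((g n q.1 q.2 : ℕ) : ℝ) • e) (F n)) q.2)) n with hst
  set w : ℕ → 𝓢(E, ℂ) × 𝓢(E, ℂ) := fun n => (st n).1 with hw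
  set j : ℕ → ℕ := fun n => (st n).2 with hj
  set z : ℕ → E := fun n => ((g n (w n) (j n) : ℕ) : ℝ) • e with hz
  have hws : ∀ n, w (n + 1) = w n + T (z n) (F n) := fun n => rfl
  have hjs : ∀ n, j (n + 1) = h (n + 1) (w (n + 1)) (j n) := fun n => rfl
  have hwI : ∀ n, Inv n (w n) := by
    intro n
    induction n with
    | zero =>
      intro k hk
      exact absurd (Finset.mem_range.1 hk) (Nat.not_lt_zero k)
    | succ n ih =>
      rw [hws]
      exact hg1 n _ _ ih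
  have hwO : ∀ n, Op n (w n) (j n) := by
    intro n
    cases n with
    | zero =>
      intro k hk
      exact absurd (Finset.mem_range.1 hk) (Nat.not_lt_zero k)
    | succ n =>
      rw [hjs]
      exact hh2 _ _ _ (hwI _)
  have hjm : Monotone j := monotone_nat_of_le_succ fun n => by
    rw [hjs]
    exact hh1 _ _ _
  have hsm : ∀ n : ℕ, ∀ t : ℝ, |t| ≤ n + 1 → ∀ x : E, ‖x‖ ≤ j n + n →
      ‖wv (T (z n) (F n)) t x‖ ≤ (1 / 2) ^ (n + 1) / ((j n : ℝ) + 1) := fun n => hg2 n _ _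
  have hwsum : ∀ N, w N = ∑ n ∈ Finset.range N, T (z n) (F n) := by
    intro N
    induction N with
    | zero => rfl
    | succ N ih => rw [hws, Finset.sum_range_succ, ih]
  set u : ℝ × E → ℂ := fun y => ∑' n, wv (T (z n) (F n)) y.1 y.2 with hu
  have hTLU : TendstoLocallyUniformly (ps fun n => T (z n) (F n)) u atTop := by
    rw [tendstoLocallyUniformly_iff_forall_isCompact]
    intro K hK
    have hs : Summable fun n : ℕ => (1 / 2 : ℝ) ^ (n + 1) := by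
      simpa [pow_succ] using (summable_geometric_two).mul_right (1 / 2 : ℝ)
    apply tendstoUniformlyOn_tsum_nat_eventually (f := fun n (y : ℝ × E) =>
      wv (T (z n) (F n)) y.1 y.2) hs
    obtain ⟨R, hR⟩ := hK.isBounded.exists_norm_le
    obtain ⟨N, hN⟩ := exists_nat_gt R
    filter_upwards [eventually_ge_atTop N] with n hn y hy
    have h1 := hR y hy
    have hn' : (N : ℝ) ≤ n := by exact_mod_cast hn
    have h2 : |y.1| ≤ n + 1 := by
      have := (norm_fst_le y).trans h1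
      rw [Real.norm_eq_abs] at this
      linarith
    have h3 : ‖y.2‖ ≤ j n + n := by
      have := (norm_snd_le y).trans h1
      have : (0 : ℝ) ≤ j n := Nat.cast_nonneg _
      linarith
    refine (hsm n y.1 h2 y.2 h3).trans ?_
    apply div_le_self (by positivity)
    have : (0 : ℝ) ≤ j n := Nat.cast_nonneg _
    linarith
  have huc : Continuous u := hTLU.continuous (Frequently.of_forall fun N => ps_cont _ N)
  refine ⟨z, u, hTLU, ?_⟩
  intro t ht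
  obtain ⟨k, hk⟩ := Is_exhaust ht
  apply ENNReal.eq_top_of_forall_nnreal_le
  intro r
  obtain ⟨M, hM⟩ := exists_nat_gt r
  have hrM : (r : ℝ≥0∞) ≤ ((k + 1 + M - k : ℕ) : ℝ≥0∞) := by
    have h1 : (r : ℝ≥0∞) ≤ (M : ℝ≥0∞) := by exact_mod_cast hM.le
    refine h1.trans ?_
    exact_mod_cast (by omega : M ≤ k + 1 + M - k)
  refine hrM.trans (le_of_lt ?_)
  set N := k + 1 + M with hN
  apply hwO N k (Finset.mem_range.2 (by omega)) u huc _ t hk
  intro t' ht' x hx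
  have hlim : Tendsto (fun L => ps (fun n => T (z n) (F n)) L (t', x)) atTop (𝓝 (u (t', x))) :=
    (tendstoLocallyUniformlyOn_univ.2 hTLU).tendsto_at (mem_univ (t', x))
  have hlim2 : Tendsto (fun L => ‖ps (fun n => T (z n) (F n)) L (t', x) - wv (w N) t' x‖) atTop
      (𝓝 ‖u (t', x) - wv (w N) t' x‖) := (hlim.sub_const _).norm
  apply le_of_tendsto hlim2
  filter_upwards [eventually_ge_atTop N] with L hL
  have e1 : ps (fun n => T (z n) (F n)) L (t', x) - wv (w N) t' x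
      = ∑ n ∈ Finset.Ico N L, wv (T (z n) (F n)) t' x := by
    rw [hwsum, wv_sum, Finset.sum_Ico_eq_sub _ hL]
    rfl
  rw [e1]
  refine (norm_sum_le _ _).trans ?_
  have hb : ∀ n ∈ Finset.Ico N L, ‖wv (T (z n) (F n)) t' x‖
      ≤ (1 / 2) ^ (n + 1) * (1 / ((j N : ℝ) + 1)) := by
    intro n hn
    have hNn : N ≤ n := (Finset.mem_Ico.1 hn).1
    have hjn : (j N : ℝ) ≤ j n := by exact_mod_cast hjm hNn
    have h1 : |t'| ≤ n + 1 := by
      have h3 : (k : ℝ) ≤ n := by exact_mod_cast (by omega : k ≤ n)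
      have := ht'.2
      linarith
    have h2 : ‖x‖ ≤ j n + n := by
      have : (0 : ℝ) ≤ n := Nat.cast_nonneg _
      linarith
    refine (hsm n t' h1 x h2).trans ?_
    rw [div_eq_mul_one_div]
    gcongr
  refine (Finset.sum_le_sum hb).trans ?_
  rw [← Finset.sum_mul]
  have h3 := half_sum N L
  calc (∑ n ∈ Finset.Ico N L, (1 / 2 : ℝ) ^ (n + 1)) * (1 / ((j N : ℝ) + 1))
      ≤ 1 * (1 / ((j N : ℝ) + 1)) := by gcongr
    _ = _ := one_mul _

end Pool.Agent.Q93.LSP
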