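import Mathlib
import Pool.Agent.Q93.LSP.K
set_option autoImplicit false

/-! The equivalences. -/

namespace Pool.Agent.Q93.LSP

open MeasureTheory Set Filter Topology ProbabilityTheory Module
open scoped ENNReal NNReal FourierTransform RealInnerProductSpace SchwartzMap

variable {E : Type*} [NormedAddCommGroup E] [InnerProductSpace ℝ E] [FiniteDimensional ℝ E]
  [MeasurableSpace E] [BorelSpace E]

/-- the norm of the solution at time `t` -/
noncomputable def Nt (p : ℝ) (v : 𝓢(E, ℂ) × 𝓢(E, ℂ)) (t : ℝ) : ℝ≥0∞ :=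
  eLpNorm (wv v t) (ENNReal.ofReal p) volume

lemma Nt_pow {p : ℝ} (hp : 1 ≤ p) (v : 𝓢(E, ℂ) × 𝓢(E, ℂ)) (t : ℝ) : Nt p v t ^ p = en p v t :=
  pw_eq hp _

lemma Nt_meas {p : ℝ} (hp : 1 ≤ p) (v : 𝓢(E, ℂ) × 𝓢(E, ℂ)) : Measurable (Nt p v) := by
  have hp0 : 0 < p := by linarith
  have e : Nt p v = fun t => en p v t ^ (1 / p) := by
    ext t
    rw [← Nt_pow hp, ← ENNReal.rpow_mul, one_div, mul_inv_cancel₀ hp0.ne', ENNReal.rpow_one]
  rw [e]
  exact (en_meas v).pow_const _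

lemma Av.L1 {p : ℝ} (hp : 1 ≤ p) {s a b : ℝ} {C : ℝ≥0} (h : Av E p s a b C) :
    ∃ C' : ℝ≥0, ∀ v : 𝓢(E, ℂ) × 𝓢(E, ℂ), ∫⁻ t in Icc a b, Nt p v t ≤ C' * sz p s v := by
  have hp0 : 0 < p := by linarith
  set V : ℝ≥0∞ := (volume (Icc a b)) ^ (1 / 1 - 1 / p) with hV
  have hVt : V ≠ ⊤ := by
    rw [hV]
    apply ENNReal.rpow_ne_top_of_nonneg
    · rw [one_div_one, sub_nonneg, div_le_one hp0]
      exact hp
    · rw [Real.volume_Icc]
      exact ENNReal.ofReal_ne_top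
  refine ⟨C * V.toNNReal, fun v => ?_⟩
  have h1 := eLpNorm'_le_eLpNorm'_mul_rpow_measure_univ (μ := volume.restrict (Icc a b))
    (f := Nt p v) one_pos hp (Nt_meas hp v).aestronglyMeasurable
  unfold eLpNorm' at h1
  simp only [enorm_eq_self, ENNReal.rpow_one, div_one, Measure.restrict_apply MeasurableSet.univ,
    univ_inter, Nt_pow hp] at h1
  refine h1.trans ?_
  rw [ENNReal.coe_mul, ENNReal.coe_toNNReal hVt]
  have h2 : (∫⁻ t in Icc a b, en p v t) ^ (1 / p) ≤ C * sz p s v := by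
    calc (∫⁻ t in Icc a b, en p v t) ^ (1 / p) ≤ ((C * sz p s v) ^ p) ^ (1 / p) := by
          gcongr
          exact h v
      _ = C * sz p s v := by
          rw [← ENNReal.rpow_mul, one_div, mul_inv_cancel₀ hp0.ne', ENNReal.rpow_one]
  calc (∫⁻ t in Icc a b, en p v t) ^ (1 / p) * (volume (Icc a b)) ^ (1 - 1 / p)
      ≤ (C * sz p s v) * V := by
        rw [hV, one_div_one]
        gcongr
    _ = _ := by ring

lemma good_of_mixed {p : ℝ} {s a b q : ℝ} {C : ℝ≥0} (hp : 1 ≤ p) (hq : 0 < q) (hab : a < b)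
    (h : ∀ u : 𝓢(E, ℂ) × 𝓢(E, ℂ), ∫⁻ t in Icc a b, Nt p u t ^ q ≤ (C * sz p s u) ^ q) :
    ∃ C' : ℝ≥0, Gd E p s a b C' := by
  set V : ℝ≥0∞ := volume (Icc a b) with hV
  have hV0 : V ≠ 0 := by
    rw [hV, Real.volume_Icc]
    simp only [ne_eq, ENNReal.ofReal_eq_zero, not_le]
    linarith
  have hVt : V ≠ ⊤ := by
    rw [hV, Real.volume_Icc]
    exact ENNReal.ofReal_ne_top
  set Q : ℝ≥0∞ := C * (V⁻¹) ^ (1 / q) with hQ
  have hQt : Q ≠ ⊤ := by
    rw [hQ]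
    apply ENNReal.mul_ne_top ENNReal.coe_ne_top
    exact ENNReal.rpow_ne_top_of_nonneg (by positivity) (ENNReal.inv_ne_top.2 hV0)
  refine ⟨Q.toNNReal, fun v => ?_⟩
  rw [ENNReal.coe_toNNReal hQt]
  obtain ⟨t, ht, hle⟩ := exists_le_setLAverage (μ := volume) (s := Icc a b)
    (f := fun t => Nt p v t ^ q) hV0 hVt ((Nt_meas hp v).pow_const q).aemeasurable
  refine ⟨t, ht, ?_⟩
  rw [setLAverage_eq, ← hV] at hle
  have h1 : Nt p v t ^ q ≤ (Q * sz p s v) ^ q := by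
    refine hle.trans ?_
    have e : Q * sz p s v = (V⁻¹) ^ (1 / q) * (C * sz p s v) := by
      rw [hQ]
      ring
    rw [e, ENNReal.mul_rpow_of_nonneg _ (C * sz p s v) hq.le, ← ENNReal.rpow_mul, one_div,
      inv_mul_cancel₀ hq.ne', ENNReal.rpow_one, div_eq_mul_inv, mul_comm]
    gcongr
    exact h v
  exact (ENNReal.rpow_le_rpow_iff hq).1 h1

lemma sl_le {p : ℝ} (hp : 1 ≤ p) {F : ℕ → 𝓢(E, ℂ) × 𝓢(E, ℂ)} {u : ℝ × E → ℂ}
    (hu : TendstoLocallyUniformly (ps F) u atTop) (t : ℝ) :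
    eLpNorm (fun x => u (t, x)) (ENNReal.ofReal p) volume ≤ ∑' n, Nt p (F n) t := by
  have hq1 : 1 ≤ ENNReal.ofReal p := by
    rw [← ENNReal.ofReal_one]
    exact ENNReal.ofReal_le_ofReal hp
  have h1 : ∀ x, Tendsto (fun N => ps F N (t, x)) atTop (𝓝 (u (t, x))) := fun x =>
    (tendstoLocallyUniformlyOn_univ.2 hu).tendsto_at (mem_univ (t, x))
  have hc : ∀ N, Continuous fun x : E => ps F N (t, x) := fun N =>
    (ps_cont F N).comp (continuous_const.prodMk continuous_id)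
  refine (Lp.eLpNorm_lim_le_liminf_eLpNorm (fun N => (hc N).aestronglyMeasurable) _
    (Eventually.of_forall h1)).trans ?_
  apply liminf_le_of_frequently_le'
  apply Frequently.of_forall
  intro N
  have e : (fun x : E => ps F N (t, x)) = ∑ n ∈ Finset.range N, wv (F n) t := by
    ext x
    rw [Finset.sum_apply]
    rfl
  rw [e]
  refine (eLpNorm_sum_le (fun n _ => (wv_cont_right _ _).aestronglyMeasurable) hq1).trans ?_
  exact ENNReal.sum_le_tsum _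

theorem equiv {p : ℝ} (hp : 1 ≤ p) (s : ℝ) {e : E} (he : ‖e‖ = 1) :
    List.TFAE [
      ∃ C : ℝ≥0, Av E p s 1 2 C,
      ∀ a b : ℝ, 0 < a → ∃ C : ℝ≥0, Av E p s a b C,
      ∃ (q a b : ℝ) (C : ℝ≥0), 0 < q ∧ 0 < a ∧ a < b ∧
        ∀ u : 𝓢(E, ℂ) × 𝓢(E, ℂ), ∫⁻ t in Icc a b, Nt p u t ^ q ≤ (C * sz p s u) ^ q,
      ∃ (a b : ℝ) (C : ℝ≥0), 0 < a ∧ a ≤ b ∧ Gd E p s a b C,
      ∀ F : ℕ → 𝓢(E, ℂ) × 𝓢(E, ℂ), ∑' n, sz p s (F n) < ⊤ →
        ∀ᵐ t : ℝ, ∑' n, Nt p (F n) t < ⊤,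
      ∀ (F : ℕ → 𝓢(E, ℂ) × 𝓢(E, ℂ)) (u : ℝ × E → ℂ), ∑' n, sz p s (F n) < ⊤ →
        TendstoLocallyUniformly (ps F) u atTop →
          ∃ t ≠ 0, eLpNorm (fun x => u (t, x)) (ENNReal.ofReal p) volume < ⊤] := by
  have hp0 : 0 < p := by linarith
  tfae_have 1 → 2 := by
    rintro ⟨C, hC⟩ a b ha
    exact hC.all hp ha
  tfae_have 2 → 1 := fun h => h 1 2 one_pos
  tfae_have 1 → 3 := by
    rintro ⟨C, hC⟩
    refine ⟨p, 1, 2, C, hp0, one_pos, one_lt_two, fun u => ?_⟩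
    simp_rw [Nt_pow hp]
    exact hC u
  tfae_have 3 → 4 := by
    rintro ⟨q, a, b, C, hq, ha, hab, h⟩
    obtain ⟨C', hC'⟩ := good_of_mixed hp hq hab h
    exact ⟨a, b, C', ha, hab.le, hC'⟩
  tfae_have 4 → 1 := by
    rintro ⟨a, b, C, ha, hab, hC⟩
    obtain ⟨A, hA⟩ := avg (E := E) hp s he ha hab
    exact ⟨A * C, hA C hC⟩
  tfae_have 2 → 5 := by
    intro h F hF
    have hpos : ∀ F : ℕ → 𝓢(E, ℂ) × 𝓢(E, ℂ), ∑' n, sz p s (F n) < ⊤ →
        ∀ᵐ t ∂(volume.restrict (Ioi (0 : ℝ))), ∑' n, Nt p (F n) t < ⊤ := by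
      intro F hF
      apply ae_pos
      intro k
      obtain ⟨C, hC⟩ := h (1 / ((k : ℝ) + 1)) ((k : ℝ) + 1) (It_pos k)
      obtain ⟨C', hC'⟩ := hC.L1 hp
      apply ae_lt_top
      · exact Measurable.tsum fun n => Nt_meas hp (F n)
      · apply ne_of_lt
        calc ∫⁻ t in It k, ∑' n, Nt p (F n) t
            = ∑' n, ∫⁻ t in It k, Nt p (F n) t :=
              lintegral_tsum fun n => (Nt_meas hp (F n)).aemeasurable
          _ ≤ ∑' n, (C' : ℝ≥0∞) * sz p s (F n) := ENNReal.tsum_le_tsum fun n => hC' (F n)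
          _ = (C' : ℝ≥0∞) * ∑' n, sz p s (F n) := ENNReal.tsum_mul_left
          _ < ⊤ := ENNReal.mul_lt_top ENNReal.coe_lt_top hF
    have h1 := hpos F hF
    have h2 := hpos (fun n => Rf (F n)) (by simpa only [sz_Rf] using hF)
    have e : ∀ (v : 𝓢(E, ℂ) × 𝓢(E, ℂ)) (t : ℝ), Nt p (Rf v) t = Nt p v (-t) := by
      intro v t
      unfold Nt
      congr 1
      ext x
      exact wv_Rf v t x
    simp_rw [e] at h2
    rw [ae_restrict_iff' measurableSet_Ioi] at h1 h2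
    have h3 : ∀ᵐ t : ℝ, -t ∈ Ioi (0 : ℝ) → ∑' n, Nt p (F n) (-(-t)) < ⊤ :=
      (Measure.measurePreserving_neg (volume : Measure ℝ)).quasiMeasurePreserving.ae h2
    have h4 : ∀ᵐ t : ℝ, t ≠ 0 := by
      rw [ae_iff]
      simp
    filter_upwards [h1, h3, h4] with t k1 k2 k3
    rcases lt_or_gt_of_ne k3 with k4 | k4
    · rw [neg_neg] at k2
      exact k2 (neg_pos.2 k4)
    · exact k1 k4
  tfae_have 5 → 6 := by
    intro h F u hF hu
    have h4 : ∀ᵐ t : ℝ, t ≠ 0 := by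
      rw [ae_iff]
      simp
    obtain ⟨t, h1, ht⟩ := ((h F hF).and h4).exists
    exact ⟨t, ht, (sl_le hp hu t).trans_lt h1⟩
  tfae_have 6 → 4 := by
    intro h
    by_contra hc
    push Not at hc
    have h1 : ∀ n : ℕ, ∀ C : ℝ≥0, ¬ Gd E p s (1 / ((n : ℝ) + 1)) ((n : ℝ) + 1) C := fun n C =>
      hc _ _ C (It_pos n) (It_le n)
    choose F hF1 hF2 using fun n => bad_sym hp he n (h1 n)
    obtain ⟨z, u, hu1, hu2⟩ := hump he hF2
    have hsum : ∑' n, sz p s (T (z n) (F n)) < ⊤ := by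
      have h2 : ∀ n, sz p s (T (z n) (F n)) ≤ 2 * (2⁻¹ : ℝ≥0∞) ^ n := by
        intro n
        rw [sz_T hp]
        exact hF1 n
      refine (ENNReal.tsum_le_tsum h2).trans_lt ?_
      rw [ENNReal.tsum_mul_left, ENNReal.tsum_geometric]
      apply ENNReal.mul_lt_top (by norm_num)
      rw [ENNReal.inv_lt_top]
      rw [tsub_pos_iff_lt, ENNReal.inv_lt_one]
      norm_num
    obtain ⟨t, ht, h2⟩ := h _ u hsum hu1
    have h3 : sl p u t < ⊤ := by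
      unfold sl
      rw [← pw_eq hp]
      exact ENNReal.rpow_lt_top_of_nonneg hp0.le h2.ne
    rw [hu2 t ht] at h3
    exact lt_irrefl _ h3
  tfae_finish

end Pool.Agent.Q93.LSP
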